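import Pool.Agent.K4H58.XK.Spec

open Finset

namespace Pool.Agent.K4H58.XK

/-- in a half graph some `i ∈ C` is related to everything inside `C` that is related to something -/
theorem nested {ι : Type} [DecidableEq ι] (R : ι → ι → Prop) [DecidableRel R]
    (h2 : ∀ i j i' j', R i j → R i' j' → R i j' ∨ R i' j) (C : Finset ι) (hC : C.Nonempty) :
    ∃ a ∈ C, ∀ i ∈ C, ∀ j ∈ C, R i j → R a j := by
  obtain ⟨a, ha, hmax⟩ := C.exists_max_image (fun i => (C.filter (fun j => R i j)).card) hC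
  refine ⟨a, ha, fun i hi j hj hij => ?_⟩
  by_contra hcon
  have hlt : (C.filter (fun j => R a j)).card < (C.filter (fun j => R i j)).card := by
    apply Finset.card_lt_card
    rw [Finset.ssubset_iff_of_subset]
    · exact ⟨j, by simp [hj, hij], by simp [hcon]⟩
    · intro j' hj'
      rw [Finset.mem_filter] at hj' ⊢
      refine ⟨hj'.1, ?_⟩
      rcases h2 i j a j' hij hj'.2 with h | h
      · exact h
      · exact absurd h hcon
  exact absurd (hmax i hi) (not_le.mpr hlt)

theorem offDiag_bound (b : ℕ) : 2 * b ≤ 2 + (b * b - b) := by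
  rcases b with _ | _ | b
  · simp
  · simp
  · have : (b + 1 + 1) * (b + 1 + 1) - (b + 1 + 1) = b * b + 3 * b + 2 := by
      apply Nat.sub_eq_of_eq_add; ring
    rw [this]; nlinarith

/-- for a point `x` and an index `a` with `x ∈ X a`: the upper cherries at `a` -/
theorem upper_at {ι α : Type} [Fintype ι] [DecidableEq ι] [DecidableEq α]
    (X : ι → Finset α) (R : ι → ι → Prop) [DecidableRel R] (x : α) (a : ι) (ha : x ∈ X a) :
    2 * (univ.filter (fun j : ι => R a j ∧ x ∈ X j)).card ≤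
      2 + (univ.filter (fun p : ι × ι × ι => p.2.1 ≠ p.2.2 ∧ R p.1 p.2.1 ∧ R p.1 p.2.2 ∧
        x ∈ X p.1 ∧ x ∈ X p.2.1 ∧ x ∈ X p.2.2)).card := by
  set B := univ.filter (fun j : ι => R a j ∧ x ∈ X j) with hB
  have h1 : B.offDiag.card ≤ (univ.filter (fun p : ι × ι × ι => p.2.1 ≠ p.2.2 ∧ R p.1 p.2.1 ∧
      R p.1 p.2.2 ∧ x ∈ X p.1 ∧ x ∈ X p.2.1 ∧ x ∈ X p.2.2)).card := by
    apply Finset.card_le_card_of_injOn (fun q => (a, q.1, q.2))
    · intro q hq
      have hq' := Finset.mem_offDiag.mp (Finset.mem_coe.mp hq)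
      rw [hB] at hq'
      simp only [Finset.mem_filter, Finset.mem_univ, true_and] at hq'
      simp only [Finset.coe_filter, Finset.mem_univ, true_and, Set.mem_ofPred_eq]
      exact ⟨hq'.2.2, hq'.1.1, hq'.2.1.1, ha, hq'.1.2, hq'.2.1.2⟩
    · rintro ⟨q1, q2⟩ _ ⟨r1, r2⟩ _ h
      simp only [Prod.mk.injEq, true_and] at h
      rw [h.1, h.2]
  rw [Finset.offDiag_card] at h1
  exact (offDiag_bound _).trans (Nat.add_le_add_left h1 2)

/-- the inequality at one point -/
theorem at_point {ι α : Type} [Fintype ι] [DecidableEq ι] [DecidableEq α]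
    (X : ι → Finset α) (R : ι → ι → Prop) [DecidableRel R]
    (h2 : ∀ i j i' j', R i j → R i' j' → R i j' ∨ R i' j) (x : α)
    (hE : (univ.filter (fun p : ι × ι => R p.1 p.2 ∧ x ∈ X p.1 ∧ x ∈ X p.2)).Nonempty) :
    2 * (univ.filter (fun p : ι × ι => R p.1 p.2 ∧ x ∈ X p.1 ∧ x ∈ X p.2)).card ≤
      2 + (univ.filter (fun p : ι × ι × ι => p.1 ≠ p.2.1 ∧ R p.1 p.2.2 ∧ R p.2.1 p.2.2 ∧
        x ∈ X p.1 ∧ x ∈ X p.2.1 ∧ x ∈ X p.2.2)).card +
      (univ.filter (fun p : ι × ι × ι => p.2.1 ≠ p.2.2 ∧ R p.1 p.2.1 ∧ R p.1 p.2.2 ∧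
        x ∈ X p.1 ∧ x ∈ X p.2.1 ∧ x ∈ X p.2.2)).card := by
  obtain ⟨p0, hp0⟩ := hE
  rw [Finset.mem_filter] at hp0
  obtain ⟨a, ha, hmax⟩ := nested R h2 (univ.filter (fun i => x ∈ X i))
    ⟨p0.1, by simp [hp0.2.2.1]⟩
  have hax : x ∈ X a := by simpa using ha
  have hmax' : ∀ i j, x ∈ X i → x ∈ X j → R i j → R a j := by
    intro i j hi hj hij
    exact hmax i (by simp [hi]) j (by simp [hj]) hij
  set E := univ.filter (fun p : ι × ι => R p.1 p.2 ∧ x ∈ X p.1 ∧ x ∈ X p.2) with hEdef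
  set L := univ.filter (fun p : ι × ι × ι => p.1 ≠ p.2.1 ∧ R p.1 p.2.2 ∧ R p.2.1 p.2.2 ∧
        x ∈ X p.1 ∧ x ∈ X p.2.1 ∧ x ∈ X p.2.2) with hLdef
  have hU := upper_at X R x a hax
  set B := univ.filter (fun j : ι => R a j ∧ x ∈ X j) with hB
  set E1 := E.filter (fun p => p.1 = a) with hE1
  set E2 := E.filter (fun p => ¬ p.1 = a) with hE2
  have hsplit : E1.card + E2.card = E.card := Finset.card_filter_add_card_filter_not _
  have hc1 : E1.card ≤ B.card := by
    apply Finset.card_le_card_of_injOn (fun p => p.2)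
    · intro p hp
      have hp' := Finset.mem_coe.mp hp
      rw [hE1, Finset.mem_filter, hEdef, Finset.mem_filter] at hp'
      simp only [hB, Finset.coe_filter, Finset.mem_univ, true_and, Set.mem_ofPred_eq]
      refine ⟨?_, hp'.1.2.2.2⟩
      rw [← hp'.2]; exact hp'.1.2.1
    · rintro ⟨p1, p2⟩ hp ⟨q1, q2⟩ hq h
      have hp' := Finset.mem_coe.mp hp
      have hq' := Finset.mem_coe.mp hq
      rw [hE1, Finset.mem_filter] at hp' hq'
      have e1 : p1 = a := hp'.2
      have e2 : q1 = a := hq'.2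
      have e3 : p2 = q2 := h
      rw [e1, e2, e3]
  have hc2 : 2 * E2.card ≤ L.card := by
    have himg1 : (E2.image (fun p => (a, p.1, p.2))).card = E2.card := by
      apply Finset.card_image_of_injective
      rintro ⟨p1, p2⟩ ⟨q1, q2⟩ h
      simp only [Prod.mk.injEq, true_and] at h
      rw [h.1, h.2]
    have himg2 : (E2.image (fun p => (p.1, a, p.2))).card = E2.card := by
      apply Finset.card_image_of_injective
      rintro ⟨p1, p2⟩ ⟨q1, q2⟩ h
      simp only [Prod.mk.injEq, true_and] at h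
      rw [h.1, h.2]
    have hmem : ∀ p ∈ E2, p.1 ≠ a ∧ R p.1 p.2 ∧ x ∈ X p.1 ∧ x ∈ X p.2 := by
      intro p hp
      rw [hE2, Finset.mem_filter, hEdef, Finset.mem_filter] at hp
      exact ⟨hp.2, hp.1.2⟩
    have hdis : Disjoint (E2.image (fun p => (a, p.1, p.2))) (E2.image (fun p => (p.1, a, p.2))) := by
      rw [Finset.disjoint_left]
      intro q hq hq'
      rw [Finset.mem_image] at hq hq'
      obtain ⟨p, hp, rfl⟩ := hq
      obtain ⟨p', hp', he⟩ := hq'
      simp only [Prod.mk.injEq] at he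
      exact (hmem p' hp').1 he.1
    have hsub : (E2.image (fun p => (a, p.1, p.2))) ∪ (E2.image (fun p => (p.1, a, p.2))) ⊆ L := by
      intro q hq
      rw [Finset.mem_union, Finset.mem_image, Finset.mem_image] at hq
      rw [hLdef, Finset.mem_filter]
      refine ⟨Finset.mem_univ _, ?_⟩
      rcases hq with ⟨p, hp, rfl⟩ | ⟨p, hp, rfl⟩
      · obtain ⟨m1, m2, m3, m4⟩ := hmem p hp
        exact ⟨fun h => m1 h.symm, hmax' _ _ m3 m4 m2, m2, hax, m3, m4⟩
      · obtain ⟨m1, m2, m3, m4⟩ := hmem p hp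
        exact ⟨m1, m2, hmax' _ _ m3 m4 m2, m3, hax, m4⟩
    have := Finset.card_le_card hsub
    rw [Finset.card_union_of_disjoint hdis, himg1, himg2] at this
    omega
  omega

/-- PIECE D: the pointwise inequality for an abstract relation `R` (a half graph).
Proof: for `x` with an `R`-pair in `C_x = {i | x ∈ X i}`: 2|E_x| ≤ 2 + |Lc_x| + |Uc_x| (take in C_x the i° with the
largest out-neighbourhood inside C_x: by h2 it is related to all the b uppers of C_x; the other pairs (i,j) give lower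
cherries (i°,i,j),(i,i°,j), the b uppers give b(b-1) ≥ 2(b-1) ordered upper cherries).
The set of such x has at most k|U| elements, U = {j | ∃ i, R i j}.
With the global i* (related to all of U): |U| ≤ Σ_{x ∈ X i*} b_x and 2 b_x ≤ 2 + |Uc_x|. -/
theorem pointwise {ι α : Type} [Fintype ι] [DecidableEq ι] [Fintype α] [DecidableEq α] {k : ℕ}
    (X : ι → Finset α) (hX : ∀ i, (X i).card = k) (R : ι → ι → Prop) [DecidableRel R]
    (h1 : ∀ i j, R i j → ¬ Disjoint (X i) (X j))
    (h2 : ∀ i j i' j', R i j → R i' j' → R i j' ∨ R i' j) :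
    2 * ∑ x : α, (univ.filter (fun p : ι × ι => R p.1 p.2 ∧ x ∈ X p.1 ∧ x ∈ X p.2)).card ≤
      2 * k ^ 2 +
      ∑ x : α, (univ.filter (fun p : ι × ι × ι => p.1 ≠ p.2.1 ∧ R p.1 p.2.2 ∧ R p.2.1 p.2.2 ∧
        x ∈ X p.1 ∧ x ∈ X p.2.1 ∧ x ∈ X p.2.2)).card +
      (1 + k) * ∑ x : α, (univ.filter (fun p : ι × ι × ι => p.2.1 ≠ p.2.2 ∧ R p.1 p.2.1 ∧ R p.1 p.2.2 ∧
        x ∈ X p.1 ∧ x ∈ X p.2.1 ∧ x ∈ X p.2.2)).card := by
  set E : α → ℕ := fun x =>
    (univ.filter (fun p : ι × ι => R p.1 p.2 ∧ x ∈ X p.1 ∧ x ∈ X p.2)).card with hE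
  set L : α → ℕ := fun x => (univ.filter (fun p : ι × ι × ι => p.1 ≠ p.2.1 ∧ R p.1 p.2.2 ∧
    R p.2.1 p.2.2 ∧ x ∈ X p.1 ∧ x ∈ X p.2.1 ∧ x ∈ X p.2.2)).card with hL
  set W : α → ℕ := fun x => (univ.filter (fun p : ι × ι × ι => p.2.1 ≠ p.2.2 ∧ R p.1 p.2.1 ∧
    R p.1 p.2.2 ∧ x ∈ X p.1 ∧ x ∈ X p.2.1 ∧ x ∈ X p.2.2)).card with hW
  set S : Finset α := univ.filter (fun x => 0 < E x) with hS
  have hSum : 2 * ∑ x : α, E x ≤ 2 * S.card + ∑ x : α, L x + ∑ x : α, W x := by
    have e1 : ∑ x : α, E x = ∑ x ∈ S, E x := by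
      symm
      apply Finset.sum_subset (Finset.subset_univ _)
      intro x _ hx
      rw [hS, Finset.mem_filter] at hx
      push Not at hx
      have := hx (Finset.mem_univ x)
      omega
    rw [e1, Finset.mul_sum]
    calc ∑ x ∈ S, 2 * E x ≤ ∑ x ∈ S, (2 + L x + W x) := by
          apply Finset.sum_le_sum
          intro x hx
          rw [hS, Finset.mem_filter] at hx
          exact at_point X R h2 x (Finset.card_pos.mp hx.2)
      _ = 2 * S.card + ∑ x ∈ S, L x + ∑ x ∈ S, W x := by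
          rw [Finset.sum_add_distrib, Finset.sum_add_distrib, Finset.sum_const, smul_eq_mul]
          ring
      _ ≤ 2 * S.card + ∑ x : α, L x + ∑ x : α, W x := by
          have a1 : ∑ x ∈ S, L x ≤ ∑ x : α, L x :=
            Finset.sum_le_sum_of_subset (Finset.subset_univ _)
          have a2 : ∑ x ∈ S, W x ≤ ∑ x : α, W x :=
            Finset.sum_le_sum_of_subset (Finset.subset_univ _)
          omega
  have hScard : 2 * S.card ≤ 2 * k ^ 2 + k * ∑ x : α, W x := by
    rcases S.eq_empty_or_nonempty with h | ⟨x0, hx0⟩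
    · rw [h]; simp
    · rw [hS, Finset.mem_filter] at hx0
      obtain ⟨p0, hp0⟩ := Finset.card_pos.mp hx0.2
      rw [Finset.mem_filter] at hp0
      obtain ⟨a, -, hmax⟩ := nested R h2 (univ : Finset ι) ⟨p0.1, Finset.mem_univ _⟩
      set U := univ.filter (fun j => R a j) with hU
      have c1 : S.card ≤ U.card * k := by
        have hsub : S ⊆ U.biUnion X := by
          intro x hx
          rw [hS, Finset.mem_filter] at hx
          obtain ⟨p, hp⟩ := Finset.card_pos.mp hx.2
          rw [Finset.mem_filter] at hp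
          rw [Finset.mem_biUnion]
          refine ⟨p.2, ?_, hp.2.2.2⟩
          rw [hU, Finset.mem_filter]
          exact ⟨Finset.mem_univ _, hmax _ (Finset.mem_univ _) _ (Finset.mem_univ _) hp.2.1⟩
        exact (Finset.card_le_card hsub).trans
          (Finset.card_biUnion_le_card_mul _ _ _ (fun j _ => (hX j).le))
      have c2 : 2 * U.card ≤ 2 * k + ∑ x : α, W x := by
        have hsub : U ⊆ (X a).biUnion (fun x => univ.filter (fun j => R a j ∧ x ∈ X j)) := by
          intro j hj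
          rw [hU, Finset.mem_filter] at hj
          have hnd := h1 a j hj.2
          rw [Finset.not_disjoint_iff] at hnd
          obtain ⟨x, hx1, hx2⟩ := hnd
          rw [Finset.mem_biUnion]
          exact ⟨x, hx1, by simp [hj.2, hx2]⟩
        have h3 := (Finset.card_le_card hsub).trans Finset.card_biUnion_le
        calc 2 * U.card ≤ 2 * ∑ x ∈ X a, (univ.filter (fun j => R a j ∧ x ∈ X j)).card := by
              exact Nat.mul_le_mul_left 2 h3
          _ = ∑ x ∈ X a, 2 * (univ.filter (fun j => R a j ∧ x ∈ X j)).card := by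
              rw [Finset.mul_sum]
          _ ≤ ∑ x ∈ X a, (2 + W x) := by
              apply Finset.sum_le_sum
              intro x hx
              exact upper_at X R x a hx
          _ = 2 * k + ∑ x ∈ X a, W x := by
              rw [Finset.sum_add_distrib, Finset.sum_const, smul_eq_mul, hX a]; ring
          _ ≤ 2 * k + ∑ x : α, W x := by
              have := Finset.sum_le_sum_of_subset (f := W) (Finset.subset_univ (X a))
              omega
      calc 2 * S.card ≤ 2 * (U.card * k) := Nat.mul_le_mul_left 2 c1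
        _ = (2 * U.card) * k := by ring
        _ ≤ (2 * k + ∑ x : α, W x) * k := Nat.mul_le_mul_right k c2
        _ = 2 * k ^ 2 + k * ∑ x : α, W x := by ring
  calc 2 * ∑ x : α, E x ≤ 2 * S.card + ∑ x : α, L x + ∑ x : α, W x := hSum
    _ ≤ (2 * k ^ 2 + k * ∑ x : α, W x) + ∑ x : α, L x + ∑ x : α, W x := by omega
    _ = 2 * k ^ 2 + ∑ x : α, L x + (1 + k) * ∑ x : α, W x := by ring

end Pool.Agent.K4H58.XK
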