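import Pool.Agent.K4H58.XK.C
import Pool.Agent.K4H58.XK.D

open Finset

namespace Pool.Agent.K4H58.XK

lemma arr_disj {N : ℕ} {Y0 J : Finset (Fin N)} {σ : Equiv.Perm (Fin N)} {A B : Finset (Fin N)}
    (h : Arr Y0 J σ A B) : Disjoint A B := by
  rw [Finset.disjoint_left]
  intro a haA haB
  by_cases ha : a ∈ Y0
  · exact (Finset.disjoint_left.1 h.2.1 haB) (h.1 (Finset.mem_inter.2 ⟨haA, ha⟩))
  · exact lt_irrefl _ (h.2.2 a (Finset.mem_sdiff.2 ⟨haA, ha⟩) a (Finset.mem_sdiff.2 ⟨haB, ha⟩))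

lemma arr_chain {N : ℕ} {Y0 J : Finset (Fin N)} {σ : Equiv.Perm (Fin N)} {A B A' B' : Finset (Fin N)}
    (h : Arr Y0 J σ A B) (h' : Arr Y0 J σ A' B') : Arr Y0 J σ A B' ∨ Arr Y0 J σ A' B := by
  by_cases hc : ∀ a ∈ A \ Y0, ∀ b ∈ B' \ Y0, σ a < σ b
  · exact Or.inl ⟨h.1, h'.2.1, hc⟩
  · right
    push Not at hc
    obtain ⟨a, ha, b', hb', hab⟩ := hc
    refine ⟨h'.1, h.2.1, fun a' ha' b hb => ?_⟩
    exact ((h'.2.2 a' ha' b' hb').trans_le hab).trans (h.2.2 a ha b hb)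

lemma card_triples0 {ι : Type} [Fintype ι] [DecidableEq ι] (s : Finset ι) :
    (univ.filter (fun p : ι × ι × ι => p.1 ∈ s ∧ p.2.1 ∈ s ∧ p.2.2 ∈ s ∧ p.1 ≠ p.2.1 ∧ p.2.2 ≠ p.1 ∧
      p.2.2 ≠ p.2.1)).card ≤ s.card * ((s.card - 1) * (s.card - 2)) := by
  classical
  let T : Finset (Σ _ : ι, Σ _ : ι, ι) :=
    s.sigma (fun a => (s.erase a).sigma (fun b => (s.erase a).erase b))
  have h1 : (univ.filter (fun p : ι × ι × ι => p.1 ∈ s ∧ p.2.1 ∈ s ∧ p.2.2 ∈ s ∧ p.1 ≠ p.2.1 ∧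
      p.2.2 ≠ p.1 ∧ p.2.2 ≠ p.2.1)).card ≤ T.card := by
    refine Finset.card_le_card_of_injOn (fun p => ⟨p.1, ⟨p.2.1, p.2.2⟩⟩) ?_ ?_
    · rintro ⟨a, b, c⟩ hp
      simp only [Finset.coe_filter, Finset.mem_univ, true_and, Set.mem_ofPred_eq] at hp
      obtain ⟨h1, h2, h3, h4, h5, h6⟩ := hp
      simp only [T, Finset.coe_sigma, Set.mem_sigma_iff, Finset.mem_coe, Finset.mem_erase]
      exact ⟨h1, ⟨⟨Ne.symm h4, h2⟩, h6, h5, h3⟩⟩
    · rintro ⟨a, b, c⟩ _ ⟨a', b', c'⟩ _ h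
      simp only [Sigma.mk.injEq, heq_eq_eq] at h
      obtain ⟨h1, h2, h3⟩ := h
      simp [h1, h2, h3]
  refine h1.trans ?_
  have h2 : T.card = ∑ a ∈ s, ∑ b ∈ s.erase a, ((s.erase a).erase b).card := by
    simp only [T, Finset.card_sigma]
  rw [h2]
  have h3 : ∀ a ∈ s, ∑ b ∈ s.erase a, ((s.erase a).erase b).card = (s.card - 1) * (s.card - 2) := by
    intro a ha
    have : ∀ b ∈ s.erase a, ((s.erase a).erase b).card = s.card - 2 := by
      intro b hb
      rw [Finset.card_erase_of_mem hb, Finset.card_erase_of_mem ha]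
      omega
    rw [Finset.sum_congr rfl this, Finset.sum_const, Finset.card_erase_of_mem ha, smul_eq_mul]
  rw [Finset.sum_congr rfl h3, Finset.sum_const, smul_eq_mul]

lemma W_arr_self {N k : ℕ} {Y0 A : Finset (Fin N)} (hA : A.Nonempty) (f : ℕ → ℕ)
    (P : Finset (Fin N) → Equiv.Perm (Fin N) → Prop) [∀ J σ, Decidable (P J σ)]
    (h : ∀ J σ, P J σ → Arr Y0 J σ A A) : W k Y0 f P = 0 := by
  unfold W
  refine Finset.sum_eq_zero fun J _ => Finset.sum_eq_zero fun σ _ => ?_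
  rw [if_neg]
  intro hP
  have := arr_disj (h J σ hP)
  rw [Finset.disjoint_self_iff_empty] at this
  exact hA.ne_empty this


section
variable {ι α : Type} [Fintype ι] [DecidableEq ι] [Fintype α] [DecidableEq α] {N k : ℕ}

/-- number of pairs at `x` -/
def eX (X : ι → Finset α) (Y : ι → Finset (Fin N)) (Y0 J : Finset (Fin N)) (σ : Equiv.Perm (Fin N)) (x : α) : ℕ :=
  (univ.filter (fun p : ι × ι => Arr Y0 J σ (Y p.1) (Y p.2) ∧ x ∈ X p.1 ∧ x ∈ X p.2)).card

/-- number of lower cherries at `x` -/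
def lX (X : ι → Finset α) (Y : ι → Finset (Fin N)) (Y0 J : Finset (Fin N)) (σ : Equiv.Perm (Fin N)) (x : α) : ℕ :=
  (univ.filter (fun p : ι × ι × ι => p.1 ≠ p.2.1 ∧ Arr Y0 J σ (Y p.1) (Y p.2.2) ∧
    Arr Y0 J σ (Y p.2.1) (Y p.2.2) ∧ x ∈ X p.1 ∧ x ∈ X p.2.1 ∧ x ∈ X p.2.2)).card

/-- number of upper cherries at `x` -/
def uX (X : ι → Finset α) (Y : ι → Finset (Fin N)) (Y0 J : Finset (Fin N)) (σ : Equiv.Perm (Fin N)) (x : α) : ℕ :=
  (univ.filter (fun p : ι × ι × ι => p.2.1 ≠ p.2.2 ∧ Arr Y0 J σ (Y p.1) (Y p.2.1) ∧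
    Arr Y0 J σ (Y p.1) (Y p.2.2) ∧ x ∈ X p.1 ∧ x ∈ X p.2.1 ∧ x ∈ X p.2.2)).card

lemma pw (X : ι → Finset α) (Y : ι → Finset (Fin N)) (hX : ∀ i, (X i).card = k)
    (hXY : ∀ i j, i ≠ j → (Disjoint (X i) (X j) ↔ ¬ Disjoint (Y i) (Y j)))
    (Y0 : Finset (Fin N)) (hY0 : Y0.card = k) (h0 : ∀ i, ¬ Disjoint (Y i) Y0)
    (J : Finset (Fin N)) (hJ : J ∈ Js Y0) (σ : Equiv.Perm (Fin N)) :
    2 * ∑ x : α, eX X Y Y0 J σ x ≤ 2 * k ^ 2 + (1 + chL k J.card) * ∑ x : α, lX X Y Y0 J σ x +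
      (1 + chU k J.card) * ∑ x : α, uX X Y Y0 J σ x := by
  simp only [Js, Finset.mem_filter, Finset.mem_powerset] at hJ
  obtain ⟨hJ1, hJ2, hJ3⟩ := hJ
  have hJc : J.card < k := by
    rw [← hY0]
    exact Finset.card_lt_card (hJ1.ssubset_of_ne hJ3)
  have hJp : 0 < J.card := Finset.card_pos.2 (Finset.nonempty_iff_ne_empty.2 hJ2)
  have hne : ∀ i, (Y i).Nonempty := by
    intro i
    by_contra h
    rw [Finset.not_nonempty_iff_eq_empty] at h
    exact h0 i (by rw [h]; exact Finset.disjoint_empty_left _)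
  have h1 : ∀ i j, Arr Y0 J σ (Y i) (Y j) → ¬ Disjoint (X i) (X j) := by
    intro i j h hd
    have hd' := arr_disj h
    have hij : i ≠ j := by
      rintro rfl
      rw [Finset.disjoint_self_iff_empty] at hd'
      exact (hne i).ne_empty hd'
    exact (hXY i j hij).1 hd hd'
  have h2 : ∀ i j i' j', Arr Y0 J σ (Y i) (Y j) → Arr Y0 J σ (Y i') (Y j') →
      Arr Y0 J σ (Y i) (Y j') ∨ Arr Y0 J σ (Y i') (Y j) := fun i j i' j' h h' => arr_chain h h'
  have P1 := pointwise X hX (fun i j => Arr Y0 J σ (Y i) (Y j)) h1 h2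
  have P2 := pointwise' X hX (fun i j => Arr Y0 J σ (Y i) (Y j)) h1 h2
  change 2 * ∑ x : α, eX X Y Y0 J σ x ≤ 2 * k ^ 2 + ∑ x : α, lX X Y Y0 J σ x +
    (1 + k) * ∑ x : α, uX X Y Y0 J σ x at P1
  change 2 * ∑ x : α, eX X Y Y0 J σ x ≤ 2 * k ^ 2 + (1 + k) * ∑ x : α, lX X Y Y0 J σ x +
    ∑ x : α, uX X Y Y0 J σ x at P2
  have hdis : ∀ i j x, i ≠ j → x ∈ X i → x ∈ X j → Disjoint (Y i) (Y j) := by
    intro i j x hij hi hj
    by_contra hd
    exact (Finset.disjoint_left.1 ((hXY i j hij).2 hd) hi) hj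
  by_cases hL : k ≤ 2 * J.card ∧ J.card + 1 < k
  · have hU : chU k J.card = 0 := by
      unfold chU
      rw [if_neg]
      omega
    rw [hU, add_zero, one_mul, chL, if_pos hL]
    exact P2
  · have hL' : chL k J.card = 0 := by
      unfold chL
      rw [if_neg hL]
    by_cases hU : 2 * J.card < k ∧ 1 < J.card
    · rw [hL', add_zero, one_mul, chU, if_pos hU]
      exact P1
    · have hU' : chU k J.card = 0 := by
        unfold chU
        rw [if_neg hU]
      rw [hL', hU', add_zero, one_mul, one_mul]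
      by_cases hJ1' : J.card = 1
      · have hz : ∑ x : α, lX X Y Y0 J σ x = 0 := by
          refine Finset.sum_eq_zero fun x _ => ?_
          unfold lX
          rw [Finset.card_eq_zero, Finset.filter_eq_empty_iff]
          rintro ⟨i, i', j⟩ _ ⟨hii, hr, hr', hx, hx', _⟩
          have hd : Disjoint (Y i ∩ Y0) (Y i' ∩ Y0) :=
            (hdis i i' x hii hx hx').mono Finset.inter_subset_left Finset.inter_subset_left
          have hc := Finset.card_union_of_disjoint hd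
          have hc2 : (Y i ∩ Y0 ∪ Y i' ∩ Y0).card ≤ J.card :=
            Finset.card_le_card (Finset.union_subset hr.1 hr'.1)
          have e1 : 0 < (Y i ∩ Y0).card := by
            rw [Finset.card_pos]
            exact Finset.not_disjoint_iff_nonempty_inter.1 (h0 i)
          have e2 : 0 < (Y i' ∩ Y0).card := by
            rw [Finset.card_pos]
            exact Finset.not_disjoint_iff_nonempty_inter.1 (h0 i')
          omega
        rw [hz] at P2 ⊢
        simpa using P2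
      · have hJk : J.card + 1 = k := by omega
        have hz : ∑ x : α, uX X Y Y0 J σ x = 0 := by
          refine Finset.sum_eq_zero fun x _ => ?_
          unfold uX
          rw [Finset.card_eq_zero, Finset.filter_eq_empty_iff]
          rintro ⟨i, j, j'⟩ _ ⟨hjj, hr, hr', _, hx, hx'⟩
          have hd : Disjoint (Y j ∩ Y0) (Y j' ∩ Y0) :=
            (hdis j j' x hjj hx hx').mono Finset.inter_subset_left Finset.inter_subset_left
          have hc := Finset.card_union_of_disjoint hd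
          have hsub : ∀ {B : Finset (Fin N)}, Disjoint B J → B ∩ Y0 ⊆ Y0 \ J := by
            intro B hB a ha
            rw [Finset.mem_inter] at ha
            exact Finset.mem_sdiff.2 ⟨ha.2, Finset.disjoint_left.1 hB ha.1⟩
          have hc2 : (Y j ∩ Y0 ∪ Y j' ∩ Y0).card ≤ (Y0 \ J).card :=
            Finset.card_le_card (Finset.union_subset (hsub hr.2.1) (hsub hr'.2.1))
          rw [Finset.card_sdiff_of_subset hJ1, hY0] at hc2
          have e1 : 0 < (Y j ∩ Y0).card := by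
            rw [Finset.card_pos]
            exact Finset.not_disjoint_iff_nonempty_inter.1 (h0 j)
          have e2 : 0 < (Y j' ∩ Y0).card := by
            rw [Finset.card_pos]
            exact Finset.not_disjoint_iff_nonempty_inter.1 (h0 j')
          omega
        rw [hz] at P1 ⊢
        simpa using P1

lemma sumE (hk : 1 ≤ k) (X : ι → Finset α) (Y : ι → Finset (Fin N)) (hY : ∀ i, (Y i).card = k)
    (hXY : ∀ i j, i ≠ j → (Disjoint (X i) (X j) ↔ ¬ Disjoint (Y i) (Y j)))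
    (Y0 : Finset (Fin N)) (hY0 : Y0.card = k) (h0 : ∀ i, ¬ Disjoint (Y i) Y0) (x : α) :
    ∑ J ∈ Js Y0, ∑ σ : Equiv.Perm (Fin N), k.choose J.card * eX X Y Y0 J σ x =
      ((univ.filter (fun i => x ∈ X i)).card * ((univ.filter (fun i => x ∈ X i)).card - 1)) * N.factorial := by
  classical
  set s := univ.filter (fun i => x ∈ X i) with hs
  have hdis : ∀ i j, i ≠ j → x ∈ X i → x ∈ X j → Disjoint (Y i) (Y j) := by
    intro i j hij hi hj
    by_contra hd
    exact (Finset.disjoint_left.1 ((hXY i j hij).2 hd) hi) hj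
  have hne : ∀ i, (Y i).Nonempty := fun i => Finset.card_pos.1 (by rw [hY i]; omega)
  have e1 : ∀ (J : Finset (Fin N)) (σ : Equiv.Perm (Fin N)), k.choose J.card * eX X Y Y0 J σ x =
      ∑ p ∈ s.offDiag, if Arr Y0 J σ (Y p.1) (Y p.2) then k.choose J.card * 1 else 0 := by
    intro J σ
    have : univ.filter (fun p : ι × ι => Arr Y0 J σ (Y p.1) (Y p.2) ∧ x ∈ X p.1 ∧ x ∈ X p.2) =
        s.offDiag.filter (fun p => Arr Y0 J σ (Y p.1) (Y p.2)) := by
      ext ⟨i, j⟩
      simp only [Finset.mem_filter, Finset.mem_univ, true_and, Finset.mem_offDiag, hs]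
      constructor
      · rintro ⟨h, hi, hj⟩
        refine ⟨⟨hi, hj, ?_⟩, h⟩
        rintro rfl
        have := arr_disj h
        rw [Finset.disjoint_self_iff_empty] at this
        exact (hne i).ne_empty this
      · rintro ⟨⟨hi, hj, _⟩, h⟩
        exact ⟨h, hi, hj⟩
    unfold eX
    rw [this, Finset.card_filter, Finset.mul_sum]
    refine Finset.sum_congr rfl fun p _ => ?_
    split_ifs <;> simp
  simp_rw [e1]
  have e2 : ∑ J ∈ Js Y0, ∑ σ : Equiv.Perm (Fin N), ∑ p ∈ s.offDiag,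
      (if Arr Y0 J σ (Y p.1) (Y p.2) then k.choose J.card * 1 else 0) =
      ∑ p ∈ s.offDiag, W k Y0 (fun _ => 1) (fun J σ => Arr Y0 J σ (Y p.1) (Y p.2)) := by
    unfold W
    rw [Finset.sum_comm' (s := s.offDiag) (t := fun _ => Js Y0) (t' := Js Y0) (s' := fun _ => s.offDiag)
      (by intro a b; tauto)]
    refine Finset.sum_congr rfl fun J _ => ?_
    rw [Finset.sum_comm]
  rw [e2]
  have e3 : ∀ p ∈ s.offDiag, W k Y0 (fun _ => 1) (fun J σ => Arr Y0 J σ (Y p.1) (Y p.2)) = N.factorial := by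
    rintro ⟨i, j⟩ hp
    simp only [Finset.mem_offDiag, hs, Finset.mem_filter, Finset.mem_univ, true_and] at hp
    exact pair_weight Y0 (Y i) (Y j) hY0 (hY i) (hY j) (hdis i j hp.2.2 hp.1 hp.2.1)
      (Finset.not_disjoint_iff_nonempty_inter.1 (h0 i)) (Finset.not_disjoint_iff_nonempty_inter.1 (h0 j))
  rw [Finset.sum_congr rfl e3, Finset.sum_const, smul_eq_mul, Finset.offDiag_card, Nat.mul_sub_one]

/-- for three distinct indices containing `x` the parts in `Y0` are small -/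
lemma parts (X : ι → Finset α) (Y : ι → Finset (Fin N))
    (hXY : ∀ i j, i ≠ j → (Disjoint (X i) (X j) ↔ ¬ Disjoint (Y i) (Y j)))
    (Y0 : Finset (Fin N)) (hY0 : Y0.card = k) (h0 : ∀ i, ¬ Disjoint (Y i) Y0) (x : α) (a b c : ι)
    (ha : x ∈ X a) (hb : x ∈ X b) (hc : x ∈ X c) (hab : a ≠ b) (hca : c ≠ a) (hcb : c ≠ b) :
    (univ.filter (fun i => x ∈ X i)).card + (Y a ∩ Y0).card + (Y b ∩ Y0).card + (Y c ∩ Y0).card ≤ k + 3 := by
  classical
  set s := univ.filter (fun i => x ∈ X i) with hs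
  have hdis : ∀ i j, i ≠ j → x ∈ X i → x ∈ X j → Disjoint (Y i) (Y j) := by
    intro i j hij hi hj
    by_contra hd
    exact (Finset.disjoint_left.1 ((hXY i j hij).2 hd) hi) hj
  have h1 : (s.biUnion (fun i => Y i ∩ Y0)).card = ∑ i ∈ s, (Y i ∩ Y0).card := by
    rw [Finset.card_biUnion]
    intro i hi j hj hij
    simp only [hs, Finset.mem_coe, Finset.mem_filter, Finset.mem_univ, true_and] at hi hj
    exact (hdis i j hij hi hj).mono Finset.inter_subset_left Finset.inter_subset_left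
  have h2 : (s.biUnion (fun i => Y i ∩ Y0)).card ≤ k := by
    rw [← hY0]
    refine Finset.card_le_card ?_
    intro y hy
    rw [Finset.mem_biUnion] at hy
    obtain ⟨i, _, hi⟩ := hy
    exact (Finset.mem_inter.1 hi).2
  have hpos : ∀ i, 1 ≤ (Y i ∩ Y0).card := fun i =>
    Finset.card_pos.2 (Finset.not_disjoint_iff_nonempty_inter.1 (h0 i))
  have ma : a ∈ s := by simp [hs, ha]
  have mb : b ∈ s.erase a := by simp [hs, hb, Ne.symm hab]
  have mc : c ∈ (s.erase a).erase b := by simp [hs, hc, hca, hcb]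
  have h3 : ∑ i ∈ s, (Y i ∩ Y0).card = (Y a ∩ Y0).card + ((Y b ∩ Y0).card + ((Y c ∩ Y0).card +
      ∑ i ∈ ((s.erase a).erase b).erase c, (Y i ∩ Y0).card)) := by
    rw [← Finset.add_sum_erase s _ ma, ← Finset.add_sum_erase (s.erase a) _ mb,
      ← Finset.add_sum_erase ((s.erase a).erase b) _ mc]
  have h4 : (((s.erase a).erase b).erase c).card ≤ ∑ i ∈ ((s.erase a).erase b).erase c, (Y i ∩ Y0).card := by
    rw [Finset.card_eq_sum_ones]
    exact Finset.sum_le_sum fun i _ => hpos i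
  rw [Finset.card_erase_of_mem mc, Finset.card_erase_of_mem mb, Finset.card_erase_of_mem ma] at h4
  omega

lemma arr_empty {Y0 J : Finset (Fin N)} {σ : Equiv.Perm (Fin N)} {A : Finset (Fin N)} (hA : A.Nonempty) :
    ¬ Arr Y0 J σ A A := by
  intro h
  have := arr_disj h
  rw [Finset.disjoint_self_iff_empty] at this
  exact hA.ne_empty this

lemma sumL (hG : Good k) (hk : 1 ≤ k) (X : ι → Finset α) (Y : ι → Finset (Fin N)) (hY : ∀ i, (Y i).card = k)
    (hXY : ∀ i j, i ≠ j → (Disjoint (X i) (X j) ↔ ¬ Disjoint (Y i) (Y j)))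
    (Y0 : Finset (Fin N)) (hY0 : Y0.card = k) (h0 : ∀ i, ¬ Disjoint (Y i) Y0) (x : α) :
    ∑ J ∈ Js Y0, ∑ σ : Equiv.Perm (Fin N), (k.choose J.card * (1 + chL k J.card)) * lX X Y Y0 J σ x ≤
      (((univ.filter (fun i => x ∈ X i)).card - 1) * ((univ.filter (fun i => x ∈ X i)).card - 2)) *
        N.factorial := by
  classical
  set s := univ.filter (fun i => x ∈ X i) with hs
  have hdis : ∀ i j, i ≠ j → x ∈ X i → x ∈ X j → Disjoint (Y i) (Y j) := by
    intro i j hij hi hj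
    by_contra hd
    exact (Finset.disjoint_left.1 ((hXY i j hij).2 hd) hi) hj
  have hne : ∀ i, (Y i).Nonempty := fun i => Finset.card_pos.1 (by rw [hY i]; omega)
  set T := univ.filter (fun p : ι × ι × ι => p.1 ∈ s ∧ p.2.1 ∈ s ∧ p.2.2 ∈ s ∧ p.1 ≠ p.2.1 ∧ p.2.2 ≠ p.1 ∧
      p.2.2 ≠ p.2.1) with hT
  have e1 : ∀ (J : Finset (Fin N)) (σ : Equiv.Perm (Fin N)),
      (k.choose J.card * (1 + chL k J.card)) * lX X Y Y0 J σ x =
      ∑ p ∈ T, if Arr Y0 J σ (Y p.1) (Y p.2.2) ∧ Arr Y0 J σ (Y p.2.1) (Y p.2.2) then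
        k.choose J.card * (1 + chL k J.card) else 0 := by
    intro J σ
    have : univ.filter (fun p : ι × ι × ι => p.1 ≠ p.2.1 ∧ Arr Y0 J σ (Y p.1) (Y p.2.2) ∧
        Arr Y0 J σ (Y p.2.1) (Y p.2.2) ∧ x ∈ X p.1 ∧ x ∈ X p.2.1 ∧ x ∈ X p.2.2) =
        T.filter (fun p => Arr Y0 J σ (Y p.1) (Y p.2.2) ∧ Arr Y0 J σ (Y p.2.1) (Y p.2.2)) := by
      ext ⟨i, i', j⟩
      simp only [Finset.mem_filter, Finset.mem_univ, true_and, hs, hT]
      constructor
      · rintro ⟨h1, h2, h3, h4, h5, h6⟩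
        refine ⟨⟨h4, h5, h6, h1, ?_, ?_⟩, h2, h3⟩
        · rintro rfl; exact arr_empty (hne _) h2
        · rintro rfl; exact arr_empty (hne _) h3
      · rintro ⟨⟨h4, h5, h6, h1, _, _⟩, h2, h3⟩
        exact ⟨h1, h2, h3, h4, h5, h6⟩
    unfold lX
    rw [this, Finset.card_filter, Finset.mul_sum]
    refine Finset.sum_congr rfl fun p _ => ?_
    split_ifs <;> simp
  simp_rw [e1]
  have e2 : ∑ J ∈ Js Y0, ∑ σ : Equiv.Perm (Fin N), ∑ p ∈ T,
      (if Arr Y0 J σ (Y p.1) (Y p.2.2) ∧ Arr Y0 J σ (Y p.2.1) (Y p.2.2) then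
        k.choose J.card * (1 + chL k J.card) else 0) =
      ∑ p ∈ T, W k Y0 (fun j => 1 + chL k j)
        (fun J σ => Arr Y0 J σ (Y p.1) (Y p.2.2) ∧ Arr Y0 J σ (Y p.2.1) (Y p.2.2)) := by
    unfold W
    rw [Finset.sum_comm' (s := T) (t := fun _ => Js Y0) (t' := Js Y0) (s' := fun _ => T)
      (by intro a b; tauto)]
    refine Finset.sum_congr rfl fun J _ => ?_
    rw [Finset.sum_comm]
  rw [e2]
  by_cases hm : 3 ≤ s.card
  · have e3 : ∀ p ∈ T, s.card * W k Y0 (fun j => 1 + chL k j)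
        (fun J σ => Arr Y0 J σ (Y p.1) (Y p.2.2) ∧ Arr Y0 J σ (Y p.2.1) (Y p.2.2)) ≤ N.factorial := by
      rintro ⟨a, b, c⟩ hp
      simp only [hT, hs, Finset.mem_filter, Finset.mem_univ, true_and] at hp
      obtain ⟨h1, h2, h3, h4, h5, h6⟩ := hp
      exact lower_cherry hG Y0 (Y a) (Y b) (Y c) hY0 (hY a) (hY b) (hY c) (hdis a b h4 h1 h2)
        (hdis a c (Ne.symm h5) h1 h3) (hdis b c (Ne.symm h6) h2 h3)
        (Finset.not_disjoint_iff_nonempty_inter.1 (h0 a))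
        (Finset.not_disjoint_iff_nonempty_inter.1 (h0 b))
        (Finset.not_disjoint_iff_nonempty_inter.1 (h0 c)) hm
        (parts X Y hXY Y0 hY0 h0 x a b c h1 h2 h3 h4 h5 h6)
    have e4 : s.card * ∑ p ∈ T, W k Y0 (fun j => 1 + chL k j)
        (fun J σ => Arr Y0 J σ (Y p.1) (Y p.2.2) ∧ Arr Y0 J σ (Y p.2.1) (Y p.2.2)) ≤
        s.card * (((s.card - 1) * (s.card - 2)) * N.factorial) := by
      rw [Finset.mul_sum]
      refine (Finset.sum_le_sum e3).trans ?_
      rw [Finset.sum_const, smul_eq_mul, ← mul_assoc]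
      exact Nat.mul_le_mul_right _ (card_triples0 s)
    exact Nat.le_of_mul_le_mul_left e4 (by omega)
  · have hT0 : T = ∅ := by
      rw [← Finset.card_eq_zero]
      have := card_triples0 s
      have h2 : s.card * ((s.card - 1) * (s.card - 2)) = 0 := by
        have : s.card = 0 ∨ s.card = 1 ∨ s.card = 2 := by omega
        rcases this with h | h | h <;> rw [h]
      rw [h2] at this
      exact Nat.le_zero.1 this
    rw [hT0, Finset.sum_empty]
    exact Nat.zero_le _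

lemma sumU (hG : Good k) (hk : 1 ≤ k) (X : ι → Finset α) (Y : ι → Finset (Fin N)) (hY : ∀ i, (Y i).card = k)
    (hXY : ∀ i j, i ≠ j → (Disjoint (X i) (X j) ↔ ¬ Disjoint (Y i) (Y j)))
    (Y0 : Finset (Fin N)) (hY0 : Y0.card = k) (h0 : ∀ i, ¬ Disjoint (Y i) Y0) (x : α) :
    ∑ J ∈ Js Y0, ∑ σ : Equiv.Perm (Fin N), (k.choose J.card * (1 + chU k J.card)) * uX X Y Y0 J σ x ≤
      (((univ.filter (fun i => x ∈ X i)).card - 1) * ((univ.filter (fun i => x ∈ X i)).card - 2)) *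
        N.factorial := by
  classical
  set s := univ.filter (fun i => x ∈ X i) with hs
  have hdis : ∀ i j, i ≠ j → x ∈ X i → x ∈ X j → Disjoint (Y i) (Y j) := by
    intro i j hij hi hj
    by_contra hd
    exact (Finset.disjoint_left.1 ((hXY i j hij).2 hd) hi) hj
  have hne : ∀ i, (Y i).Nonempty := fun i => Finset.card_pos.1 (by rw [hY i]; omega)
  set T := univ.filter (fun p : ι × ι × ι => p.1 ∈ s ∧ p.2.1 ∈ s ∧ p.2.2 ∈ s ∧ p.1 ≠ p.2.1 ∧ p.2.2 ≠ p.1 ∧
      p.2.2 ≠ p.2.1) with hT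
  have e1 : ∀ (J : Finset (Fin N)) (σ : Equiv.Perm (Fin N)),
      (k.choose J.card * (1 + chU k J.card)) * uX X Y Y0 J σ x =
      ∑ p ∈ T, if Arr Y0 J σ (Y p.1) (Y p.2.1) ∧ Arr Y0 J σ (Y p.1) (Y p.2.2) then
        k.choose J.card * (1 + chU k J.card) else 0 := by
    intro J σ
    have : univ.filter (fun p : ι × ι × ι => p.2.1 ≠ p.2.2 ∧ Arr Y0 J σ (Y p.1) (Y p.2.1) ∧
        Arr Y0 J σ (Y p.1) (Y p.2.2) ∧ x ∈ X p.1 ∧ x ∈ X p.2.1 ∧ x ∈ X p.2.2) =
        T.filter (fun p => Arr Y0 J σ (Y p.1) (Y p.2.1) ∧ Arr Y0 J σ (Y p.1) (Y p.2.2)) := by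
      ext ⟨i, j, j'⟩
      simp only [Finset.mem_filter, Finset.mem_univ, true_and, hs, hT]
      constructor
      · rintro ⟨h1, h2, h3, h4, h5, h6⟩
        refine ⟨⟨h4, h5, h6, ?_, ?_, Ne.symm h1⟩, h2, h3⟩
        · rintro rfl; exact arr_empty (hne _) h2
        · rintro rfl; exact arr_empty (hne _) h3
      · rintro ⟨⟨h4, h5, h6, _, _, h1⟩, h2, h3⟩
        exact ⟨Ne.symm h1, h2, h3, h4, h5, h6⟩
    unfold uX
    rw [this, Finset.card_filter, Finset.mul_sum]
    refine Finset.sum_congr rfl fun p _ => ?_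
    split_ifs <;> simp
  simp_rw [e1]
  have e2 : ∑ J ∈ Js Y0, ∑ σ : Equiv.Perm (Fin N), ∑ p ∈ T,
      (if Arr Y0 J σ (Y p.1) (Y p.2.1) ∧ Arr Y0 J σ (Y p.1) (Y p.2.2) then
        k.choose J.card * (1 + chU k J.card) else 0) =
      ∑ p ∈ T, W k Y0 (fun j => 1 + chU k j)
        (fun J σ => Arr Y0 J σ (Y p.1) (Y p.2.1) ∧ Arr Y0 J σ (Y p.1) (Y p.2.2)) := by
    unfold W
    rw [Finset.sum_comm' (s := T) (t := fun _ => Js Y0) (t' := Js Y0) (s' := fun _ => T)
      (by intro a b; tauto)]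
    refine Finset.sum_congr rfl fun J _ => ?_
    rw [Finset.sum_comm]
  rw [e2]
  by_cases hm : 3 ≤ s.card
  · have e3 : ∀ p ∈ T, s.card * W k Y0 (fun j => 1 + chU k j)
        (fun J σ => Arr Y0 J σ (Y p.1) (Y p.2.1) ∧ Arr Y0 J σ (Y p.1) (Y p.2.2)) ≤ N.factorial := by
      rintro ⟨a, b, c⟩ hp
      simp only [hT, hs, Finset.mem_filter, Finset.mem_univ, true_and] at hp
      obtain ⟨h1, h2, h3, h4, h5, h6⟩ := hp
      exact upper_cherry hG Y0 (Y a) (Y b) (Y c) hY0 (hY a) (hY b) (hY c)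
        (hdis b c (Ne.symm h6) h2 h3) (hdis a b h4 h1 h2)
        (hdis a c (Ne.symm h5) h1 h3)
        (Finset.not_disjoint_iff_nonempty_inter.1 (h0 a))
        (Finset.not_disjoint_iff_nonempty_inter.1 (h0 b))
        (Finset.not_disjoint_iff_nonempty_inter.1 (h0 c)) hm
        (parts X Y hXY Y0 hY0 h0 x a b c h1 h2 h3 h4 h5 h6)
    have e4 : s.card * ∑ p ∈ T, W k Y0 (fun j => 1 + chU k j)
        (fun J σ => Arr Y0 J σ (Y p.1) (Y p.2.1) ∧ Arr Y0 J σ (Y p.1) (Y p.2.2)) ≤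
        s.card * (((s.card - 1) * (s.card - 2)) * N.factorial) := by
      rw [Finset.mul_sum]
      refine (Finset.sum_le_sum e3).trans ?_
      rw [Finset.sum_const, smul_eq_mul, ← mul_assoc]
      exact Nat.mul_le_mul_right _ (card_triples0 s)
    exact Nat.le_of_mul_le_mul_left e4 (by omega)
  · have hT0 : T = ∅ := by
      rw [← Finset.card_eq_zero]
      have := card_triples0 s
      have h2 : s.card * ((s.card - 1) * (s.card - 2)) = 0 := by
        have : s.card = 0 ∨ s.card = 1 ∨ s.card = 2 := by omega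
        rcases this with h | h | h <;> rw [h]
      rw [h2] at this
      exact Nat.le_zero.1 this
    rw [hT0, Finset.sum_empty]
    exact Nat.zero_le _

omit [Fintype ι] [DecidableEq ι] [DecidableEq α] in
lemma swap3 (S : Finset (Finset (Fin N))) (f : Finset (Fin N) → Equiv.Perm (Fin N) → α → ℕ) :
    ∑ x : α, ∑ J ∈ S, ∑ σ, f J σ x = ∑ J ∈ S, ∑ σ, ∑ x, f J σ x := by
  rw [Finset.sum_comm]
  refine Finset.sum_congr rfl fun J _ => ?_
  rw [Finset.sum_comm]

/-- **The main lemma** -/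
theorem main_lemma (hG : Good k) (hk : 1 ≤ k) (X : ι → Finset α) (Y : ι → Finset (Fin N))
    (hX : ∀ i, (X i).card = k) (hY : ∀ i, (Y i).card = k)
    (hXY : ∀ i j, i ≠ j → (Disjoint (X i) (X j) ↔ ¬ Disjoint (Y i) (Y j)))
    (Y0 : Finset (Fin N)) (hY0 : Y0.card = k) (h0 : ∀ i, ¬ Disjoint (Y i) Y0) :
    2 * (k * Fintype.card ι) ≤ 2 * (univ.biUnion X).card + k ^ 2 * ((2 * k).choose k - 2) := by
  classical
  set m : α → ℕ := fun x => (univ.filter (fun i => x ∈ X i)).card with hm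
  have key : ∑ J ∈ Js Y0, ∑ σ : Equiv.Perm (Fin N), k.choose J.card * (2 * ∑ x : α, eX X Y Y0 J σ x) ≤
      ∑ J ∈ Js Y0, ∑ σ : Equiv.Perm (Fin N), k.choose J.card * (2 * k ^ 2 +
        (1 + chL k J.card) * ∑ x : α, lX X Y Y0 J σ x + (1 + chU k J.card) * ∑ x : α, uX X Y Y0 J σ x) :=
    Finset.sum_le_sum fun J hJ => Finset.sum_le_sum fun σ _ =>
      Nat.mul_le_mul_left _ (pw X Y hX hXY Y0 hY0 h0 J hJ σ)
  have k1 : ∑ J ∈ Js Y0, ∑ σ : Equiv.Perm (Fin N), k.choose J.card * (2 * ∑ x : α, eX X Y Y0 J σ x) =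
      2 * ∑ x : α, (m x * (m x - 1)) * N.factorial := by
    rw [← Finset.sum_congr rfl (fun x _ => sumE hk X Y hY hXY Y0 hY0 h0 x)]
    rw [swap3, Finset.mul_sum]
    refine Finset.sum_congr rfl fun J _ => ?_
    rw [Finset.mul_sum]
    refine Finset.sum_congr rfl fun σ _ => ?_
    rw [Finset.mul_sum, Finset.mul_sum, Finset.mul_sum]
    refine Finset.sum_congr rfl fun x _ => ?_
    ring
  have k2 : ∑ J ∈ Js Y0, ∑ σ : Equiv.Perm (Fin N), k.choose J.card * (2 * k ^ 2 +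
        (1 + chL k J.card) * ∑ x : α, lX X Y Y0 J σ x + (1 + chU k J.card) * ∑ x : α, uX X Y Y0 J σ x) =
      2 * k ^ 2 * (((2 * k).choose k - 2) * N.factorial) +
      ∑ x : α, (∑ J ∈ Js Y0, ∑ σ : Equiv.Perm (Fin N),
        (k.choose J.card * (1 + chL k J.card)) * lX X Y Y0 J σ x) +
      ∑ x : α, (∑ J ∈ Js Y0, ∑ σ : Equiv.Perm (Fin N),
        (k.choose J.card * (1 + chU k J.card)) * uX X Y Y0 J σ x) := by
    rw [← total hk Y0 hY0, swap3, swap3]
    rw [Finset.sum_mul, Finset.mul_sum, ← Finset.sum_add_distrib, ← Finset.sum_add_distrib]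
    refine Finset.sum_congr rfl fun J _ => ?_
    have hc : N.factorial = ∑ σ : Equiv.Perm (Fin N), 1 := by
      rw [Finset.sum_const, smul_eq_mul, mul_one, Finset.card_univ, Fintype.card_perm, Fintype.card_fin]
    rw [hc, Finset.mul_sum, Finset.mul_sum, ← Finset.sum_add_distrib, ← Finset.sum_add_distrib]
    refine Finset.sum_congr rfl fun σ _ => ?_
    rw [Finset.mul_sum, Finset.mul_sum, mul_add, mul_add, Finset.mul_sum, Finset.mul_sum]
    congr 1
    · congr 1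
      · ring
      · exact Finset.sum_congr rfl fun x _ => by ring
    · exact Finset.sum_congr rfl fun x _ => by ring
  have k3 : ∑ x : α, (∑ J ∈ Js Y0, ∑ σ : Equiv.Perm (Fin N),
        (k.choose J.card * (1 + chL k J.card)) * lX X Y Y0 J σ x) ≤
      ∑ x : α, ((m x - 1) * (m x - 2)) * N.factorial :=
    Finset.sum_le_sum fun x _ => sumL hG hk X Y hY hXY Y0 hY0 h0 x
  have k4 : ∑ x : α, (∑ J ∈ Js Y0, ∑ σ : Equiv.Perm (Fin N),
        (k.choose J.card * (1 + chU k J.card)) * uX X Y Y0 J σ x) ≤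
      ∑ x : α, ((m x - 1) * (m x - 2)) * N.factorial :=
    Finset.sum_le_sum fun x _ => sumU hG hk X Y hY hXY Y0 hY0 h0 x
  rw [k1, k2] at key
  have key2 : 2 * ∑ x : α, (m x * (m x - 1)) ≤ 2 * k ^ 2 * ((2 * k).choose k - 2) +
      2 * ∑ x : α, ((m x - 1) * (m x - 2)) := by
    have hN : 0 < N.factorial := Nat.factorial_pos N
    refine Nat.le_of_mul_le_mul_right (c := N.factorial) ?_ hN
    simp only [← Finset.sum_mul] at key k3 k4
    calc 2 * (∑ x : α, m x * (m x - 1)) * N.factorial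
        = 2 * ((∑ x : α, m x * (m x - 1)) * N.factorial) := by ring
      _ ≤ _ := key
      _ ≤ 2 * k ^ 2 * (((2 * k).choose k - 2) * N.factorial) +
          (∑ x : α, (m x - 1) * (m x - 2)) * N.factorial + (∑ x : α, (m x - 1) * (m x - 2)) * N.factorial :=
            Nat.add_le_add (Nat.add_le_add_left k3 _) k4
      _ = (2 * k ^ 2 * ((2 * k).choose k - 2) + 2 * ∑ x : α, (m x - 1) * (m x - 2)) * N.factorial := by ring
  have e5 : ∑ x : α, (m x * (m x - 1)) = ∑ x : α, ((m x - 1) * (m x - 2)) + 2 * ∑ x : α, (m x - 1) := by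
    rw [Finset.mul_sum, ← Finset.sum_add_distrib]
    refine Finset.sum_congr rfl fun x _ => ?_
    rcases Nat.lt_or_ge (m x) 2 with h | h
    · have : m x = 0 ∨ m x = 1 := by omega
      rcases this with h | h <;> simp [h]
    · obtain ⟨t, ht⟩ := Nat.exists_eq_add_of_le h
      rw [ht]
      have a1 : 2 + t - 1 = t + 1 := by omega
      have a2 : 2 + t - 2 = t := by omega
      rw [a1, a2]
      ring
  have e6 : k * Fintype.card ι ≤ ∑ x : α, (m x - 1) + (univ.biUnion X).card := by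
    have f1 : k * Fintype.card ι = ∑ x : α, m x := by
      have : ∑ i : ι, (X i).card = ∑ x : α, m x := by
        simp only [hm, Finset.card_eq_sum_ones, Finset.sum_filter]
        rw [Finset.sum_comm]
        refine Finset.sum_congr rfl fun i _ => ?_
        rw [← Finset.sum_filter]
        congr 1
        ext x
        simp
      rw [← this, Finset.sum_congr rfl (fun i _ => hX i), Finset.sum_const, Finset.card_univ, smul_eq_mul,
        mul_comm]
    have f2 : (univ.biUnion X).card = ∑ x : α, if 0 < m x then 1 else 0 := by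
      rw [← Finset.card_filter]
      congr 1
      ext x
      simp only [Finset.mem_biUnion, Finset.mem_univ, true_and, Finset.mem_filter, hm, Finset.card_pos]
      constructor
      · rintro ⟨i, hi⟩
        exact ⟨i, by simp [hi]⟩
      · rintro ⟨i, hi⟩
        exact ⟨i, by simpa using hi⟩
    rw [f1, f2, ← Finset.sum_add_distrib]
    refine Finset.sum_le_sum fun x _ => ?_
    split_ifs <;> omega
  rw [e5] at key2
  have : 2 * k ^ 2 * ((2 * k).choose k - 2) = 2 * (k ^ 2 * ((2 * k).choose k - 2)) := by ring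
  rw [this] at key2
  omega

end

end Pool.Agent.K4H58.XK
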