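import Pool.Agent.K4H58.XK.F
import Pool.Agent.K4H59.XKD
import Pool.Agent.K4H59.XKT

open Finset

namespace Pool.Agent.K4H58.XK

section
variable {ι α : Type} [Fintype ι] [DecidableEq ι] [Fintype α] [DecidableEq α] {N k : ℕ}

lemma pwG (uL uU : ℕ → ℕ)
    (hw : ∀ j, 1 ≤ j → j < k → ∃ p q, p + q = 2 ∧ (j = 1 ∨ 2 + (k - 1) * q ≤ uL j) ∧
      (j + 1 = k ∨ 2 + (k - 1) * p ≤ uU j))
    (X : ι → Finset α) (Y : ι → Finset (Fin N)) (hX : ∀ i, (X i).card = k)
    (hXY : ∀ i j, i ≠ j → (Disjoint (X i) (X j) ↔ ¬ Disjoint (Y i) (Y j)))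
    (Y0 : Finset (Fin N)) (hY0 : Y0.card = k) (h0 : ∀ i, ¬ Disjoint (Y i) Y0)
    (J : Finset (Fin N)) (hJ : J ∈ Js Y0) (σ : Equiv.Perm (Fin N)) :
    4 * ∑ x : α, eX X Y Y0 J σ x ≤ 4 * k ^ 2 + uL J.card * ∑ x : α, lX X Y Y0 J σ x +
      uU J.card * ∑ x : α, uX X Y Y0 J σ x := by
  simp only [Js, Finset.mem_filter, Finset.mem_powerset] at hJ
  obtain ⟨hJ1, hJ2, hJ3⟩ := hJ
  have hJc : J.card < k := by
    rw [← hY0]
    exact Finset.card_lt_card (hJ1.ssubset_of_ne hJ3)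
  have hJp : 0 < J.card := Finset.card_pos.2 (Finset.nonempty_iff_ne_empty.2 hJ2)
  have hk : 1 ≤ k := by omega
  have hne : ∀ i, (Y i).Nonempty := by
    intro i
    by_contra h
    rw [Finset.not_nonempty_iff_eq_empty] at h
    exact h0 i (by rw [h]; exact Finset.disjoint_empty_left _)
  have h1 : ∀ i j, Arr Y0 J σ (Y i) (Y j) → ¬ Disjoint (X i) (X j) := by
    intro i j h hd
    have hd' := arr_disj h
    have hij : i ≠ j := by
      rintro rfl
      rw [Finset.disjoint_self_iff_empty] at hd'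
      exact (hne i).ne_empty hd'
    exact (hXY i j hij).1 hd hd'
  have h2 : ∀ i j i' j', Arr Y0 J σ (Y i) (Y j) → Arr Y0 J σ (Y i') (Y j') →
      Arr Y0 J σ (Y i) (Y j') ∨ Arr Y0 J σ (Y i') (Y j) := fun i j i' j' h h' => arr_chain h h'
  have P1 := pointwiseP hk X hX (fun i j => Arr Y0 J σ (Y i) (Y j)) h1 h2
  have P2 := pointwiseP' hk X hX (fun i j => Arr Y0 J σ (Y i) (Y j)) h1 h2
  change 2 * ∑ x : α, eX X Y Y0 J σ x ≤ 2 * k ^ 2 + ∑ x : α, lX X Y Y0 J σ x +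
    k * ∑ x : α, uX X Y Y0 J σ x at P1
  change 2 * ∑ x : α, eX X Y Y0 J σ x ≤ 2 * k ^ 2 + k * ∑ x : α, lX X Y Y0 J σ x +
    ∑ x : α, uX X Y Y0 J σ x at P2
  have hdis : ∀ i j x, i ≠ j → x ∈ X i → x ∈ X j → Disjoint (Y i) (Y j) := by
    intro i j x hij hi hj
    by_contra hd
    exact (Finset.disjoint_left.1 ((hXY i j hij).2 hd) hi) hj
  have hz1 : J.card = 1 → ∑ x : α, lX X Y Y0 J σ x = 0 := by
    intro hJ1'
    refine Finset.sum_eq_zero fun x _ => ?_
    unfold lX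
    rw [Finset.card_eq_zero, Finset.filter_eq_empty_iff]
    rintro ⟨i, i', j⟩ _ ⟨hii, hr, hr', hx, hx', _⟩
    have hd : Disjoint (Y i ∩ Y0) (Y i' ∩ Y0) :=
      (hdis i i' x hii hx hx').mono Finset.inter_subset_left Finset.inter_subset_left
    have hc := Finset.card_union_of_disjoint hd
    have hc2 : (Y i ∩ Y0 ∪ Y i' ∩ Y0).card ≤ J.card :=
      Finset.card_le_card (Finset.union_subset hr.1 hr'.1)
    have e1 : 0 < (Y i ∩ Y0).card := by
      rw [Finset.card_pos]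
      exact Finset.not_disjoint_iff_nonempty_inter.1 (h0 i)
    have e2 : 0 < (Y i' ∩ Y0).card := by
      rw [Finset.card_pos]
      exact Finset.not_disjoint_iff_nonempty_inter.1 (h0 i')
    omega
  have hz2 : J.card + 1 = k → ∑ x : α, uX X Y Y0 J σ x = 0 := by
    intro hJk
    refine Finset.sum_eq_zero fun x _ => ?_
    unfold uX
    rw [Finset.card_eq_zero, Finset.filter_eq_empty_iff]
    rintro ⟨i, j, j'⟩ _ ⟨hjj, hr, hr', _, hx, hx'⟩
    have hd : Disjoint (Y j ∩ Y0) (Y j' ∩ Y0) :=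
      (hdis j j' x hjj hx hx').mono Finset.inter_subset_left Finset.inter_subset_left
    have hc := Finset.card_union_of_disjoint hd
    have hsub : ∀ {B : Finset (Fin N)}, Disjoint B J → B ∩ Y0 ⊆ Y0 \ J := by
      intro B hB a ha
      rw [Finset.mem_inter] at ha
      exact Finset.mem_sdiff.2 ⟨ha.2, Finset.disjoint_left.1 hB ha.1⟩
    have hc2 : (Y j ∩ Y0 ∪ Y j' ∩ Y0).card ≤ (Y0 \ J).card :=
      Finset.card_le_card (Finset.union_subset (hsub hr.2.1) (hsub hr'.2.1))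
    rw [Finset.card_sdiff_of_subset hJ1, hY0] at hc2
    have e1 : 0 < (Y j ∩ Y0).card := by
      rw [Finset.card_pos]
      exact Finset.not_disjoint_iff_nonempty_inter.1 (h0 j)
    have e2 : 0 < (Y j' ∩ Y0).card := by
      rw [Finset.card_pos]
      exact Finset.not_disjoint_iff_nonempty_inter.1 (h0 j')
    omega
  obtain ⟨p, q, hpq, hq, hp⟩ := hw J.card hJp hJc
  set E := ∑ x : α, eX X Y Y0 J σ x with hE
  set L := ∑ x : α, lX X Y Y0 J σ x with hL
  set U := ∑ x : α, uX X Y Y0 J σ x with hU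
  obtain ⟨k', rfl⟩ : ∃ k', k = k' + 1 := ⟨k - 1, by omega⟩
  simp only [Nat.add_sub_cancel] at hq hp
  have hL' : (2 + k' * q) * L ≤ uL J.card * L := by
    rcases hq with h | h
    · rw [hz1 h]; simp
    · exact Nat.mul_le_mul_right _ h
  have hU' : (2 + k' * p) * U ≤ uU J.card * U := by
    rcases hp with h | h
    · rw [hz2 h]; simp
    · exact Nat.mul_le_mul_right _ h
  refine le_trans ?_ (Nat.add_le_add (Nat.add_le_add_left hL' _) hU')
  have h3 : p * (2 * E) ≤ p * (2 * (k' + 1) ^ 2 + L + (k' + 1) * U) := Nat.mul_le_mul_left _ P1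
  have h4 : q * (2 * E) ≤ q * (2 * (k' + 1) ^ 2 + (k' + 1) * L + U) := Nat.mul_le_mul_left _ P2
  have h5 : p = 2 - q := by omega
  have hq2 : q ≤ 2 := by omega
  interval_cases q
  · simp only [h5] at h3 h4 ⊢
    nlinarith
  · simp only [h5] at h3 h4 ⊢
    nlinarith
  · simp only [h5] at h3 h4 ⊢
    nlinarith

lemma sumLG (hk : 1 ≤ k) (uL : ℕ → ℕ) (X : ι → Finset α) (Y : ι → Finset (Fin N))
    (hY : ∀ i, (Y i).card = k)
    (hXY : ∀ i j, i ≠ j → (Disjoint (X i) (X j) ↔ ¬ Disjoint (Y i) (Y j)))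
    (Y0 : Finset (Fin N)) (hY0 : Y0.card = k) (h0 : ∀ i, ¬ Disjoint (Y i) Y0)
    (hL : ∀ (A B C : Finset (Fin N)) (m : ℕ), A.card = k → B.card = k → C.card = k → Disjoint A B →
      Disjoint A C → Disjoint B C → (A ∩ Y0).Nonempty → (B ∩ Y0).Nonempty → (C ∩ Y0).Nonempty → 3 ≤ m →
      m + (A ∩ Y0).card + (B ∩ Y0).card + (C ∩ Y0).card ≤ k + 3 →
      m * (W k Y0 uL (fun J σ => Arr Y0 J σ A C ∧ Arr Y0 J σ B C) +
        W k Y0 uL (fun J σ => Arr Y0 J σ B A ∧ Arr Y0 J σ C A) +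
        W k Y0 uL (fun J σ => Arr Y0 J σ C B ∧ Arr Y0 J σ A B)) ≤ 6 * N.factorial) (x : α) :
    ∑ J ∈ Js Y0, ∑ σ : Equiv.Perm (Fin N), (k.choose J.card * uL J.card) * lX X Y Y0 J σ x ≤
      2 * (((univ.filter (fun i => x ∈ X i)).card - 1) * ((univ.filter (fun i => x ∈ X i)).card - 2)) *
        N.factorial := by
  classical
  set s := univ.filter (fun i => x ∈ X i) with hs
  have hdis : ∀ i j, i ≠ j → x ∈ X i → x ∈ X j → Disjoint (Y i) (Y j) := by
    intro i j hij hi hj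
    by_contra hd
    exact (Finset.disjoint_left.1 ((hXY i j hij).2 hd) hi) hj
  have hne : ∀ i, (Y i).Nonempty := fun i => Finset.card_pos.1 (by rw [hY i]; omega)
  set T := (s ×ˢ s ×ˢ s).filter (fun p => p.1 ≠ p.2.1 ∧ p.1 ≠ p.2.2 ∧ p.2.1 ≠ p.2.2) with hT
  have e1 : ∀ (J : Finset (Fin N)) (σ : Equiv.Perm (Fin N)),
      (k.choose J.card * uL J.card) * lX X Y Y0 J σ x =
      ∑ p ∈ T, if Arr Y0 J σ (Y p.1) (Y p.2.2) ∧ Arr Y0 J σ (Y p.2.1) (Y p.2.2) then
        k.choose J.card * uL J.card else 0 := by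
    intro J σ
    have : univ.filter (fun p : ι × ι × ι => p.1 ≠ p.2.1 ∧ Arr Y0 J σ (Y p.1) (Y p.2.2) ∧
        Arr Y0 J σ (Y p.2.1) (Y p.2.2) ∧ x ∈ X p.1 ∧ x ∈ X p.2.1 ∧ x ∈ X p.2.2) =
        T.filter (fun p => Arr Y0 J σ (Y p.1) (Y p.2.2) ∧ Arr Y0 J σ (Y p.2.1) (Y p.2.2)) := by
      ext ⟨i, i', j⟩
      simp only [Finset.mem_filter, Finset.mem_univ, true_and, hs, hT, Finset.mem_product]
      constructor
      · rintro ⟨h1, h2, h3, h4, h5, h6⟩
        refine ⟨⟨⟨h4, h5, h6⟩, h1, ?_, ?_⟩, h2, h3⟩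
        · rintro rfl; exact arr_empty (hne _) h2
        · rintro rfl; exact arr_empty (hne _) h3
      · rintro ⟨⟨⟨h4, h5, h6⟩, h1, _, _⟩, h2, h3⟩
        exact ⟨h1, h2, h3, h4, h5, h6⟩
    unfold lX
    rw [this, Finset.card_filter, Finset.mul_sum]
    refine Finset.sum_congr rfl fun p _ => ?_
    split_ifs <;> simp
  simp_rw [e1]
  have e2 : ∑ J ∈ Js Y0, ∑ σ : Equiv.Perm (Fin N), ∑ p ∈ T,
      (if Arr Y0 J σ (Y p.1) (Y p.2.2) ∧ Arr Y0 J σ (Y p.2.1) (Y p.2.2) then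
        k.choose J.card * uL J.card else 0) =
      ∑ p ∈ T, (fun a b c => W k Y0 uL
        (fun J σ => Arr Y0 J σ (Y a) (Y c) ∧ Arr Y0 J σ (Y b) (Y c))) p.1 p.2.1 p.2.2 := by
    unfold W
    rw [Finset.sum_comm' (s := T) (t := fun _ => Js Y0) (t' := Js Y0) (s' := fun _ => T)
      (by intro a b; tauto)]
    refine Finset.sum_congr rfl fun J _ => ?_
    rw [Finset.sum_comm]
  rw [e2]
  refine triple_avg s (fun a b c => W k Y0 uL
        (fun J σ => Arr Y0 J σ (Y a) (Y c) ∧ Arr Y0 J σ (Y b) (Y c))) N.factorial ?_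
  intro a ha b hb c hc hab hac hbc
  have hm : 3 ≤ s.card := by
    have h3 : ({a, b, c} : Finset ι).card = 3 := by
      rw [Finset.card_insert_of_notMem, Finset.card_insert_of_notMem, Finset.card_singleton]
      · simpa using hbc
      · simp [hab, hac]
    rw [← h3]
    refine Finset.card_le_card ?_
    intro z hz
    simp only [Finset.mem_insert, Finset.mem_singleton] at hz
    rcases hz with rfl | rfl | rfl <;> assumption
  simp only [hs, Finset.mem_filter, Finset.mem_univ, true_and] at ha hb hc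
  exact hL (Y a) (Y b) (Y c) s.card (hY a) (hY b) (hY c) (hdis a b hab ha hb) (hdis a c hac ha hc)
    (hdis b c hbc hb hc)
    (Finset.not_disjoint_iff_nonempty_inter.1 (h0 a))
    (Finset.not_disjoint_iff_nonempty_inter.1 (h0 b))
    (Finset.not_disjoint_iff_nonempty_inter.1 (h0 c)) hm
    (parts X Y hXY Y0 hY0 h0 x a b c ha hb hc hab (Ne.symm hac) (Ne.symm hbc))

lemma sumUG (hk : 1 ≤ k) (uU : ℕ → ℕ) (X : ι → Finset α) (Y : ι → Finset (Fin N))
    (hY : ∀ i, (Y i).card = k)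
    (hXY : ∀ i j, i ≠ j → (Disjoint (X i) (X j) ↔ ¬ Disjoint (Y i) (Y j)))
    (Y0 : Finset (Fin N)) (hY0 : Y0.card = k) (h0 : ∀ i, ¬ Disjoint (Y i) Y0)
    (hU : ∀ (A B C : Finset (Fin N)) (m : ℕ), A.card = k → B.card = k → C.card = k → Disjoint A B →
      Disjoint A C → Disjoint B C → (A ∩ Y0).Nonempty → (B ∩ Y0).Nonempty → (C ∩ Y0).Nonempty → 3 ≤ m →
      m + (A ∩ Y0).card + (B ∩ Y0).card + (C ∩ Y0).card ≤ k + 3 →
      m * (W k Y0 uU (fun J σ => Arr Y0 J σ C A ∧ Arr Y0 J σ C B) +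
        W k Y0 uU (fun J σ => Arr Y0 J σ A B ∧ Arr Y0 J σ A C) +
        W k Y0 uU (fun J σ => Arr Y0 J σ B C ∧ Arr Y0 J σ B A)) ≤ 6 * N.factorial) (x : α) :
    ∑ J ∈ Js Y0, ∑ σ : Equiv.Perm (Fin N), (k.choose J.card * uU J.card) * uX X Y Y0 J σ x ≤
      2 * (((univ.filter (fun i => x ∈ X i)).card - 1) * ((univ.filter (fun i => x ∈ X i)).card - 2)) *
        N.factorial := by
  classical
  set s := univ.filter (fun i => x ∈ X i) with hs
  have hdis : ∀ i j, i ≠ j → x ∈ X i → x ∈ X j → Disjoint (Y i) (Y j) := by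
    intro i j hij hi hj
    by_contra hd
    exact (Finset.disjoint_left.1 ((hXY i j hij).2 hd) hi) hj
  have hne : ∀ i, (Y i).Nonempty := fun i => Finset.card_pos.1 (by rw [hY i]; omega)
  set T := (s ×ˢ s ×ˢ s).filter (fun p => p.1 ≠ p.2.1 ∧ p.1 ≠ p.2.2 ∧ p.2.1 ≠ p.2.2) with hT
  have e1 : ∀ (J : Finset (Fin N)) (σ : Equiv.Perm (Fin N)),
      (k.choose J.card * uU J.card) * uX X Y Y0 J σ x =
      ∑ p ∈ T, if Arr Y0 J σ (Y p.1) (Y p.2.1) ∧ Arr Y0 J σ (Y p.1) (Y p.2.2) then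
        k.choose J.card * uU J.card else 0 := by
    intro J σ
    have : univ.filter (fun p : ι × ι × ι => p.2.1 ≠ p.2.2 ∧ Arr Y0 J σ (Y p.1) (Y p.2.1) ∧
        Arr Y0 J σ (Y p.1) (Y p.2.2) ∧ x ∈ X p.1 ∧ x ∈ X p.2.1 ∧ x ∈ X p.2.2) =
        T.filter (fun p => Arr Y0 J σ (Y p.1) (Y p.2.1) ∧ Arr Y0 J σ (Y p.1) (Y p.2.2)) := by
      ext ⟨i, j, j'⟩
      simp only [Finset.mem_filter, Finset.mem_univ, true_and, hs, hT, Finset.mem_product]
      constructor
      · rintro ⟨h1, h2, h3, h4, h5, h6⟩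
        refine ⟨⟨⟨h4, h5, h6⟩, ?_, ?_, h1⟩, h2, h3⟩
        · rintro rfl; exact arr_empty (hne _) h2
        · rintro rfl; exact arr_empty (hne _) h3
      · rintro ⟨⟨⟨h4, h5, h6⟩, _, _, h1⟩, h2, h3⟩
        exact ⟨h1, h2, h3, h4, h5, h6⟩
    unfold uX
    rw [this, Finset.card_filter, Finset.mul_sum]
    refine Finset.sum_congr rfl fun p _ => ?_
    split_ifs <;> simp
  simp_rw [e1]
  have e2 : ∑ J ∈ Js Y0, ∑ σ : Equiv.Perm (Fin N), ∑ p ∈ T,
      (if Arr Y0 J σ (Y p.1) (Y p.2.1) ∧ Arr Y0 J σ (Y p.1) (Y p.2.2) then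
        k.choose J.card * uU J.card else 0) =
      ∑ p ∈ T, (fun a b c => W k Y0 uU
        (fun J σ => Arr Y0 J σ (Y a) (Y b) ∧ Arr Y0 J σ (Y a) (Y c))) p.1 p.2.1 p.2.2 := by
    unfold W
    rw [Finset.sum_comm' (s := T) (t := fun _ => Js Y0) (t' := Js Y0) (s' := fun _ => T)
      (by intro a b; tauto)]
    refine Finset.sum_congr rfl fun J _ => ?_
    rw [Finset.sum_comm]
  rw [e2]
  refine triple_avg s (fun a b c => W k Y0 uU
        (fun J σ => Arr Y0 J σ (Y a) (Y b) ∧ Arr Y0 J σ (Y a) (Y c))) N.factorial ?_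
  intro a ha b hb c hc hab hac hbc
  have hm : 3 ≤ s.card := by
    have h3 : ({a, b, c} : Finset ι).card = 3 := by
      rw [Finset.card_insert_of_notMem, Finset.card_insert_of_notMem, Finset.card_singleton]
      · simpa using hbc
      · simp [hab, hac]
    rw [← h3]
    refine Finset.card_le_card ?_
    intro z hz
    simp only [Finset.mem_insert, Finset.mem_singleton] at hz
    rcases hz with rfl | rfl | rfl <;> assumption
  simp only [hs, Finset.mem_filter, Finset.mem_univ, true_and] at ha hb hc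
  have := hU (Y a) (Y b) (Y c) s.card (hY a) (hY b) (hY c) (hdis a b hab ha hb) (hdis a c hac ha hc)
    (hdis b c hbc hb hc)
    (Finset.not_disjoint_iff_nonempty_inter.1 (h0 a))
    (Finset.not_disjoint_iff_nonempty_inter.1 (h0 b))
    (Finset.not_disjoint_iff_nonempty_inter.1 (h0 c)) hm
    (parts X Y hXY Y0 hY0 h0 x a b c ha hb hc hab (Ne.symm hac) (Ne.symm hbc))
  refine le_trans (le_of_eq ?_) this
  ring

/-- **The general main lemma** -/
theorem main_gen (hk : 1 ≤ k) (uL uU : ℕ → ℕ)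
    (hw : ∀ j, 1 ≤ j → j < k → ∃ p q, p + q = 2 ∧ (j = 1 ∨ 2 + (k - 1) * q ≤ uL j) ∧
      (j + 1 = k ∨ 2 + (k - 1) * p ≤ uU j))
    (X : ι → Finset α) (Y : ι → Finset (Fin N))
    (hX : ∀ i, (X i).card = k) (hY : ∀ i, (Y i).card = k)
    (hXY : ∀ i j, i ≠ j → (Disjoint (X i) (X j) ↔ ¬ Disjoint (Y i) (Y j)))
    (Y0 : Finset (Fin N)) (hY0 : Y0.card = k) (h0 : ∀ i, ¬ Disjoint (Y i) Y0)
    (hL : ∀ (A B C : Finset (Fin N)) (m : ℕ), A.card = k → B.card = k → C.card = k → Disjoint A B →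
      Disjoint A C → Disjoint B C → (A ∩ Y0).Nonempty → (B ∩ Y0).Nonempty → (C ∩ Y0).Nonempty → 3 ≤ m →
      m + (A ∩ Y0).card + (B ∩ Y0).card + (C ∩ Y0).card ≤ k + 3 →
      m * (W k Y0 uL (fun J σ => Arr Y0 J σ A C ∧ Arr Y0 J σ B C) +
        W k Y0 uL (fun J σ => Arr Y0 J σ B A ∧ Arr Y0 J σ C A) +
        W k Y0 uL (fun J σ => Arr Y0 J σ C B ∧ Arr Y0 J σ A B)) ≤ 6 * N.factorial)
    (hU : ∀ (A B C : Finset (Fin N)) (m : ℕ), A.card = k → B.card = k → C.card = k → Disjoint A B →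
      Disjoint A C → Disjoint B C → (A ∩ Y0).Nonempty → (B ∩ Y0).Nonempty → (C ∩ Y0).Nonempty → 3 ≤ m →
      m + (A ∩ Y0).card + (B ∩ Y0).card + (C ∩ Y0).card ≤ k + 3 →
      m * (W k Y0 uU (fun J σ => Arr Y0 J σ C A ∧ Arr Y0 J σ C B) +
        W k Y0 uU (fun J σ => Arr Y0 J σ A B ∧ Arr Y0 J σ A C) +
        W k Y0 uU (fun J σ => Arr Y0 J σ B C ∧ Arr Y0 J σ B A)) ≤ 6 * N.factorial) :
    2 * (k * Fintype.card ι) ≤ 2 * (univ.biUnion X).card + k ^ 2 * ((2 * k).choose k - 2) := by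
  classical
  set m : α → ℕ := fun x => (univ.filter (fun i => x ∈ X i)).card with hm
  have key : ∑ J ∈ Js Y0, ∑ σ : Equiv.Perm (Fin N), k.choose J.card * (4 * ∑ x : α, eX X Y Y0 J σ x) ≤
      ∑ J ∈ Js Y0, ∑ σ : Equiv.Perm (Fin N), k.choose J.card * (4 * k ^ 2 +
        uL J.card * ∑ x : α, lX X Y Y0 J σ x + uU J.card * ∑ x : α, uX X Y Y0 J σ x) :=
    Finset.sum_le_sum fun J hJ => Finset.sum_le_sum fun σ _ =>
      Nat.mul_le_mul_left _ (pwG uL uU hw X Y hX hXY Y0 hY0 h0 J hJ σ)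
  have k1 : ∑ J ∈ Js Y0, ∑ σ : Equiv.Perm (Fin N), k.choose J.card * (4 * ∑ x : α, eX X Y Y0 J σ x) =
      4 * ∑ x : α, (m x * (m x - 1)) * N.factorial := by
    rw [← Finset.sum_congr rfl (fun x _ => sumE hk X Y hY hXY Y0 hY0 h0 x)]
    rw [swap3, Finset.mul_sum]
    refine Finset.sum_congr rfl fun J _ => ?_
    rw [Finset.mul_sum]
    refine Finset.sum_congr rfl fun σ _ => ?_
    rw [Finset.mul_sum, Finset.mul_sum, Finset.mul_sum]
    refine Finset.sum_congr rfl fun x _ => ?_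
    ring
  have k2 : ∑ J ∈ Js Y0, ∑ σ : Equiv.Perm (Fin N), k.choose J.card * (4 * k ^ 2 +
        uL J.card * ∑ x : α, lX X Y Y0 J σ x + uU J.card * ∑ x : α, uX X Y Y0 J σ x) =
      4 * k ^ 2 * (((2 * k).choose k - 2) * N.factorial) +
      ∑ x : α, (∑ J ∈ Js Y0, ∑ σ : Equiv.Perm (Fin N),
        (k.choose J.card * uL J.card) * lX X Y Y0 J σ x) +
      ∑ x : α, (∑ J ∈ Js Y0, ∑ σ : Equiv.Perm (Fin N),
        (k.choose J.card * uU J.card) * uX X Y Y0 J σ x) := by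
    rw [← total hk Y0 hY0, swap3, swap3]
    rw [Finset.sum_mul, Finset.mul_sum, ← Finset.sum_add_distrib, ← Finset.sum_add_distrib]
    refine Finset.sum_congr rfl fun J _ => ?_
    have hc : N.factorial = ∑ σ : Equiv.Perm (Fin N), 1 := by
      rw [Finset.sum_const, smul_eq_mul, mul_one, Finset.card_univ, Fintype.card_perm, Fintype.card_fin]
    rw [hc, Finset.mul_sum, Finset.mul_sum, ← Finset.sum_add_distrib, ← Finset.sum_add_distrib]
    refine Finset.sum_congr rfl fun σ _ => ?_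
    rw [Finset.mul_sum, Finset.mul_sum, mul_add, mul_add, Finset.mul_sum, Finset.mul_sum]
    congr 1
    · congr 1
      · ring
      · exact Finset.sum_congr rfl fun x _ => by ring
    · exact Finset.sum_congr rfl fun x _ => by ring
  have k3 : ∑ x : α, (∑ J ∈ Js Y0, ∑ σ : Equiv.Perm (Fin N),
        (k.choose J.card * uL J.card) * lX X Y Y0 J σ x) ≤
      ∑ x : α, 2 * ((m x - 1) * (m x - 2)) * N.factorial :=
    Finset.sum_le_sum fun x _ => sumLG hk uL X Y hY hXY Y0 hY0 h0 hL x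
  have k4 : ∑ x : α, (∑ J ∈ Js Y0, ∑ σ : Equiv.Perm (Fin N),
        (k.choose J.card * uU J.card) * uX X Y Y0 J σ x) ≤
      ∑ x : α, 2 * ((m x - 1) * (m x - 2)) * N.factorial :=
    Finset.sum_le_sum fun x _ => sumUG hk uU X Y hY hXY Y0 hY0 h0 hU x
  rw [k1, k2] at key
  have key2 : 4 * ∑ x : α, (m x * (m x - 1)) ≤ 4 * k ^ 2 * ((2 * k).choose k - 2) +
      2 * ∑ x : α, (2 * ((m x - 1) * (m x - 2))) := by
    have hN : 0 < N.factorial := Nat.factorial_pos N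
    refine Nat.le_of_mul_le_mul_right (c := N.factorial) ?_ hN
    simp only [← Finset.sum_mul] at key k3 k4
    calc 4 * (∑ x : α, m x * (m x - 1)) * N.factorial
        = 4 * ((∑ x : α, m x * (m x - 1)) * N.factorial) := by ring
      _ ≤ _ := key
      _ ≤ 4 * k ^ 2 * (((2 * k).choose k - 2) * N.factorial) +
          (∑ x : α, 2 * ((m x - 1) * (m x - 2))) * N.factorial +
          (∑ x : α, 2 * ((m x - 1) * (m x - 2))) * N.factorial :=
            Nat.add_le_add (Nat.add_le_add_left k3 _) k4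
      _ = (4 * k ^ 2 * ((2 * k).choose k - 2) + 2 * ∑ x : α, 2 * ((m x - 1) * (m x - 2))) *
          N.factorial := by ring
  have e5 : ∑ x : α, (m x * (m x - 1)) = ∑ x : α, ((m x - 1) * (m x - 2)) + 2 * ∑ x : α, (m x - 1) := by
    rw [Finset.mul_sum, ← Finset.sum_add_distrib]
    refine Finset.sum_congr rfl fun x _ => ?_
    rcases Nat.lt_or_ge (m x) 2 with h | h
    · have : m x = 0 ∨ m x = 1 := by omega
      rcases this with h | h <;> simp [h]
    · obtain ⟨t, ht⟩ := Nat.exists_eq_add_of_le h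
      rw [ht]
      have a1 : 2 + t - 1 = t + 1 := by omega
      have a2 : 2 + t - 2 = t := by omega
      rw [a1, a2]
      ring
  have e6 : k * Fintype.card ι ≤ ∑ x : α, (m x - 1) + (univ.biUnion X).card := by
    have f1 : k * Fintype.card ι = ∑ x : α, m x := by
      have : ∑ i : ι, (X i).card = ∑ x : α, m x := by
        simp only [hm, Finset.card_eq_sum_ones, Finset.sum_filter]
        rw [Finset.sum_comm]
        refine Finset.sum_congr rfl fun i _ => ?_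
        rw [← Finset.sum_filter]
        congr 1
        ext x
        simp
      rw [← this, Finset.sum_congr rfl (fun i _ => hX i), Finset.sum_const, Finset.card_univ, smul_eq_mul,
        mul_comm]
    have f2 : (univ.biUnion X).card = ∑ x : α, if 0 < m x then 1 else 0 := by
      rw [← Finset.card_filter]
      congr 1
      ext x
      simp only [Finset.mem_biUnion, Finset.mem_univ, true_and, Finset.mem_filter, hm, Finset.card_pos]
      constructor
      · rintro ⟨i, hi⟩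
        exact ⟨i, by simp [hi]⟩
      · rintro ⟨i, hi⟩
        exact ⟨i, by simpa using hi⟩
    rw [f1, f2, ← Finset.sum_add_distrib]
    refine Finset.sum_le_sum fun x _ => ?_
    split_ifs <;> omega
  rw [← Finset.mul_sum, e5] at key2
  have : 4 * k ^ 2 * ((2 * k).choose k - 2) = 4 * (k ^ 2 * ((2 * k).choose k - 2)) := by ring
  rw [this] at key2
  omega

end

end Pool.Agent.K4H58.XK
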