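import Pool.Agent.K4H51.XKH1
import Pool.Agent.K4H40.XKH2
import Pool.Agent.K4H47.XK.H3

open Finset

namespace Pool.Agent.K4H58.XK

theorem isolated {k : ℕ} (hk : 1 ≤ k) : ∃ N0 : ℕ, ∀ {ι α β : Type} [Fintype ι] [DecidableEq ι]
    [DecidableEq α] [DecidableEq β] (X : ι → Finset α) (Y : ι → Finset β), (∀ i, (X i).card = k) →
    (∀ i, (Y i).card = k) → (∀ i j, i ≠ j → (Disjoint (X i) (X j) ↔ ¬ Disjoint (Y i) (Y j))) →
    (∀ C : Finset ι, (∀ i ∈ C, ∀ j ∈ C, i ≠ j → Disjoint (Y i) (Y j)) → C.card ≤ 2 * k) →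
    N0 ≤ Fintype.card ι → ∃ i0, ∀ i, ¬ Disjoint (Y i) (Y i0) :=
  isolated_of_pairs pairs_bound hk

end Pool.Agent.K4H58.XK
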