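import Pool.Agent.K4H58.XK.F
import Pool.Agent.K4H58.XK.H
import Pool.Agent.K4H58.XK.J

open Finset

namespace Pool.Agent.K4H58.XK

/-- the statement of the main lemma for `k` -/
def Main (k : ℕ) : Prop := ∀ {ι : Type} [Fintype ι] [DecidableEq ι] {n : ℕ}
    (X : ι → Finset (Fin n)) (Y : ι → Finset (Fin n)), (∀ i, (X i).card = k) → (∀ i, (Y i).card = k) →
    (∀ i j, i ≠ j → (Disjoint (X i) (X j) ↔ ¬ Disjoint (Y i) (Y j))) →
    ∀ Y0 : Finset (Fin n), Y0.card = k → (∀ i, ¬ Disjoint (Y i) Y0) →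
    2 * (k * Fintype.card ι) ≤ 2 * (univ.biUnion X).card + k ^ 2 * ((2 * k).choose k - 2)

lemma main_of_good {k : ℕ} (hG : Good k) (hk : 1 ≤ k) : Main k :=
  fun X Y hX hY hXY Y0 hY0 h0 => main_lemma hG hk X Y hX hY hXY Y0 hY0 h0

lemma arith {n k N : ℕ} (hk : 1 ≤ k) (h : 2 * (k * N) ≤ 2 * n + k ^ 2 * ((2 * k).choose k - 2)) :
    N ≤ n / k + (k * (2 * k).choose k / 2 - k) := by
  obtain ⟨c, hc⟩ : 2 ∣ (2 * k).choose k := by
    have := Nat.two_dvd_centralBinom_of_one_le hk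
    rwa [Nat.centralBinom] at this
  have hc1 : 1 ≤ c := by
    have : 0 < (2 * k).choose k := Nat.choose_pos (by omega)
    omega
  rw [hc] at h ⊢
  have e1 : k * (2 * c) / 2 - k = k * (c - 1) := by
    have : k * (2 * c) = 2 * (k * c) := by ring
    rw [this, Nat.mul_div_cancel_left _ (by norm_num), Nat.mul_sub, mul_one]
  have e2 : k ^ 2 * (2 * c - 2) = 2 * (k * (k * (c - 1))) := by
    have : 2 * c - 2 = 2 * (c - 1) := by omega
    rw [this]; ring
  rw [e2] at h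
  rw [e1]
  have h3 : N * k ≤ n + k * (c - 1) * k := by
    have : k * (k * (c - 1)) = k * (c - 1) * k := by ring
    have h4 : k * N = N * k := by ring
    omega
  have := (Nat.le_div_iff_mul_le (by omega : 0 < k)).2 h3
  rwa [Nat.add_mul_div_right _ _ (by omega : 0 < k)] at this

theorem upper {k : ℕ} (hM : Main k) (hk : 1 ≤ k) : ∃ n0 : ℕ, ∀ n : ℕ, n0 ≤ n → ∀ {ι : Type} [Fintype ι]
    [DecidableEq ι] (X Y : ι → Finset (Fin n)), (∀ i, (X i).card = k) → (∀ i, (Y i).card = k) →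
    (∀ i j, i ≠ j → (Disjoint (X i) (X j) ↔ ¬ Disjoint (Y i) (Y j))) →
    Fintype.card ι ≤ n / k + (k * (2 * k).choose k / 2 - k) := by
  obtain ⟨N0, hN0⟩ := isolated hk
  refine ⟨k * N0, fun n hn => ?_⟩
  intro ι _ _ X Y hX hY hXY
  by_contra hcon
  push Not at hcon
  have hN : N0 ≤ Fintype.card ι := by
    have : N0 ≤ n / k := by
      rw [Nat.le_div_iff_mul_le (by omega : 0 < k), mul_comm]
      exact hn
    omega
  have hYX : ∀ i j, i ≠ j → (Disjoint (Y i) (Y j) ↔ ¬ Disjoint (X i) (X j)) := by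
    intro i j hij
    have := hXY i j hij
    tauto
  have main : ∀ (X Y : ι → Finset (Fin n)), (∀ i, (X i).card = k) → (∀ i, (Y i).card = k) →
      (∀ i j, i ≠ j → (Disjoint (X i) (X j) ↔ ¬ Disjoint (Y i) (Y j))) →
      (∀ C : Finset ι, (∀ i ∈ C, ∀ j ∈ C, i ≠ j → Disjoint (Y i) (Y j)) → C.card ≤ 2 * k) →
      Fintype.card ι ≤ n / k + (k * (2 * k).choose k / 2 - k) := by
    intro X Y hX hY hXY hC
    obtain ⟨i0, hi0⟩ := hN0 X Y hX hY hXY hC hN
    have h1 := hM X Y hX hY hXY (Y i0) (hY i0) hi0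
    have h2 : (univ.biUnion X).card ≤ n := by
      have := Finset.card_le_univ (univ.biUnion X)
      rwa [Fintype.card_fin] at this
    exact arith hk (h1.trans (Nat.add_le_add_right (Nat.mul_le_mul_left 2 h2) _))
  rcases dichotomy hk X Y hX hY hXY with h | h
  · exact absurd (main X Y hX hY hXY h) (by omega)
  · exact absurd (main Y X hY hX hYX h) (by omega)

end Pool.Agent.K4H58.XK
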