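import Pool.Agent.K4H58.XK.FG
import Pool.Agent.K4H58.XK.K

open Finset

namespace Pool.Agent.K4H58.XK

lemma main_of_weights {k : ℕ} (hk : 1 ≤ k) (uL uU : ℕ → ℕ)
    (hw : ∀ j, 1 ≤ j → j < k → ∃ p q, p + q = 2 ∧ (j = 1 ∨ 2 + (k - 1) * q ≤ uL j) ∧
      (j + 1 = k ∨ 2 + (k - 1) * p ≤ uU j))
    (hL : ∀ {N : ℕ} (Y0 : Finset (Fin N)), Y0.card = k →
      ∀ (A B C : Finset (Fin N)) (m : ℕ), A.card = k → B.card = k → C.card = k → Disjoint A B →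
      Disjoint A C → Disjoint B C → (A ∩ Y0).Nonempty → (B ∩ Y0).Nonempty → (C ∩ Y0).Nonempty → 3 ≤ m →
      m + (A ∩ Y0).card + (B ∩ Y0).card + (C ∩ Y0).card ≤ k + 3 →
      m * (W k Y0 uL (fun J σ => Arr Y0 J σ A C ∧ Arr Y0 J σ B C) +
        W k Y0 uL (fun J σ => Arr Y0 J σ B A ∧ Arr Y0 J σ C A) +
        W k Y0 uL (fun J σ => Arr Y0 J σ C B ∧ Arr Y0 J σ A B)) ≤ 6 * N.factorial)
    (hU : ∀ {N : ℕ} (Y0 : Finset (Fin N)), Y0.card = k →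
      ∀ (A B C : Finset (Fin N)) (m : ℕ), A.card = k → B.card = k → C.card = k → Disjoint A B →
      Disjoint A C → Disjoint B C → (A ∩ Y0).Nonempty → (B ∩ Y0).Nonempty → (C ∩ Y0).Nonempty → 3 ≤ m →
      m + (A ∩ Y0).card + (B ∩ Y0).card + (C ∩ Y0).card ≤ k + 3 →
      m * (W k Y0 uU (fun J σ => Arr Y0 J σ C A ∧ Arr Y0 J σ C B) +
        W k Y0 uU (fun J σ => Arr Y0 J σ A B ∧ Arr Y0 J σ A C) +
        W k Y0 uU (fun J σ => Arr Y0 J σ B C ∧ Arr Y0 J σ B A)) ≤ 6 * N.factorial) : Main k :=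
  fun X Y hX hY hXY Y0 hY0 h0 =>
    main_gen hk uL uU hw X Y hX hY hXY Y0 hY0 h0 (hL Y0 hY0) (hU Y0 hY0)

end Pool.Agent.K4H58.XK
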