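import Mathlib

open Finset

namespace Pool.Agent.K4H58.XK

/-- `A → B` for the cut `J ⊆ Y0` and the order given by `σ`: the part of `A` in `Y0` lies in `J`, `B` misses
`J`, and all the elements of `A` outside `Y0` come before all the elements of `B` outside `Y0` -/
def Arr {N : ℕ} (Y0 J : Finset (Fin N)) (σ : Equiv.Perm (Fin N)) (A B : Finset (Fin N)) : Prop :=
  A ∩ Y0 ⊆ J ∧ Disjoint B J ∧ ∀ a ∈ A \ Y0, ∀ b ∈ B \ Y0, σ a < σ b

instance {N : ℕ} (Y0 J : Finset (Fin N)) (σ : Equiv.Perm (Fin N)) (A B : Finset (Fin N)) :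
    Decidable (Arr Y0 J σ A B) := by
  unfold Arr; infer_instance

/-- the cuts: the nonempty proper subsets of `Y0` -/
def Js {N : ℕ} (Y0 : Finset (Fin N)) : Finset (Finset (Fin N)) :=
  Y0.powerset.filter (fun J => J ≠ ∅ ∧ J ≠ Y0)

/-- extra weight of the lower cherries `i, i' → j` at cuts with `j = |J|` elements -/
def chL (k j : ℕ) : ℕ := if k ≤ 2 * j ∧ j + 1 < k then k else 0

/-- extra weight of the upper cherries `i → j, j'` at cuts with `j = |J|` elements -/
def chU (k j : ℕ) : ℕ := if 2 * j < k ∧ 1 < j then k else 0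

/-- the weight of an event -/
def W {N : ℕ} (k : ℕ) (Y0 : Finset (Fin N)) (f : ℕ → ℕ)
    (P : Finset (Fin N) → Equiv.Perm (Fin N) → Prop) [∀ J σ, Decidable (P J σ)] : ℕ :=
  ∑ J ∈ Js Y0, ∑ σ : Equiv.Perm (Fin N), if P J σ then k.choose J.card * f J.card else 0

/-- the numerical condition on `k` -/
def Good (k : ℕ) : Prop := ∀ s b m : ℕ, 2 ≤ s → 1 ≤ b → 3 ≤ m → m + s + b ≤ k + 3 →
  m * ∑ j ∈ Icc s (k - b), (1 + chL k j) * (k.choose j * (k - s - b).choose (j - s)) ≤
    (3 * k - s - b).choose (k - b)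

end Pool.Agent.K4H58.XK
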